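import Pool.Agent.W401.EHM.Stm

/-!
# The coding map (project EHM, task COD)
-/

open MeasureTheory

namespace Pool.Agent.W401.EHM

namespace CODaux

theorem app_mem : ∀ (m n : ℕ) (ω : Om), app m n ω ∈ Set.Icc (-1 : ℝ) 1
  | 0, _, _ => by simp [app]
  | _ + 1, n, ω => g_mem n (ω n) _

theorem small (k : ℕ) : 2 / (N k : ℝ) ^ 3 ≤ 1 / 2 := by
  have h1 : (16 : ℝ) ≤ N k := by exact_mod_cast N_ge k
  have h2 : (4 : ℝ) ≤ (N k : ℝ) ^ 3 := by
    calc (4 : ℝ) ≤ 16 ^ 3 := by norm_num
      _ ≤ (N k : ℝ) ^ 3 := by gcongr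
  rw [div_le_div_iff₀ (by positivity) (by norm_num)]
  linarith

theorem step (h : G4) : ∀ (m n : ℕ) (ω : Om), |app (m + 1) n ω - app m n ω| ≤ (1 / 2 : ℝ) ^ m := by
  intro m
  induction m with
  | zero =>
    intro n ω
    have h1 := app_mem 1 n ω
    have h2 : app 0 n ω = 0 := rfl
    rw [h2, sub_zero, pow_zero, abs_le]
    exact ⟨h1.1, h1.2⟩
  | succ m ih =>
    intro n ω
    have h1 : app (m + 1 + 1) n ω = g n (ω n) (app (m + 1) (n + 1) ω) := rfl
    have h2 : app (m + 1) n ω = g n (ω n) (app m (n + 1) ω) := rfl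
    rw [h1, h2]
    calc |g n (ω n) (app (m + 1) (n + 1) ω) - g n (ω n) (app m (n + 1) ω)|
        ≤ 2 / (N n : ℝ) ^ 3 * |app (m + 1) (n + 1) ω - app m (n + 1) ω| :=
          h n (ω n) _ (app_mem _ _ _) _ (app_mem _ _ _)
      _ ≤ 1 / 2 * (1 / 2 : ℝ) ^ m :=
          mul_le_mul (small n) (ih (n + 1) ω) (abs_nonneg _) (by norm_num)
      _ = (1 / 2 : ℝ) ^ (m + 1) := by ring

theorem stepd (h : G4) (n : ℕ) (ω : Om) (m : ℕ) :
    dist (app m n ω) (app (m + 1) n ω) ≤ 1 * (1 / 2 : ℝ) ^ m := by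
  rw [dist_comm, Real.dist_eq, one_mul]
  exact step h m n ω

theorem tend (h : G4) (n : ℕ) (ω : Om) :
    Filter.Tendsto (fun m => app m n ω) Filter.atTop (nhds (cod n ω)) := by
  have hc : CauchySeq (fun m => app m n ω) :=
    cauchySeq_of_le_geometric (1 / 2) 1 (by norm_num) (stepd h n ω)
  obtain ⟨a, ha⟩ := cauchySeq_tendsto_of_complete hc
  have h1 : cod n ω = a := ha.limsup_eq
  rw [h1]
  exact ha

theorem err (h : G4) (n : ℕ) (ω : Om) (m : ℕ) :
    dist (app m n ω) (cod n ω) ≤ 2 * (1 / 2 : ℝ) ^ m := by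
  have h1 := dist_le_of_le_geometric_of_tendsto (1 / 2) 1 (by norm_num) (stepd h n ω)
    (tend h n ω) m
  refine le_trans h1 (le_of_eq ?_)
  norm_num
  ring

theorem contg (n : ℕ) : Continuous (fun p : Fin (N n) × ℝ => g n p.1 p.2) := by
  rw [continuous_prod_of_discrete_left]
  intro a
  exact g_cont n a

theorem contp (n : ℕ) (f : Om → ℝ) (hf : Continuous f) : Continuous (fun ω : Om => (ω n, f ω)) :=
  Continuous.prodMk (continuous_apply n) hf

theorem conts (n : ℕ) (f : Om → ℝ) (hf : Continuous f) :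
    Continuous (fun ω : Om => g n (ω n) (f ω)) := by
  have h := (contg n).comp (contp n f hf)
  simp only [Function.comp_def] at h
  exact h

theorem cont_app : ∀ m n : ℕ, Continuous (app m n) := by
  intro m
  induction m with
  | zero =>
    intro n
    exact continuous_const
  | succ m ih =>
    intro n
    have h4 : app (m + 1) n = fun ω : Om => g n (ω n) (app m (n + 1) ω) := by
      funext ω
      rfl
    rw [h4]
    exact conts n _ (ih (n + 1))

theorem congr : ∀ (m n : ℕ) (ω ω' : Om), (∀ k, n ≤ k → ω k = ω' k) → app m n ω = app m n ω' := by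
  intro m
  induction m with
  | zero => intro n ω ω' _; rfl
  | succ m ih =>
    intro n ω ω' h
    have h1 : app (m + 1) n ω = g n (ω n) (app m (n + 1) ω) := rfl
    have h2 : app (m + 1) n ω' = g n (ω' n) (app m (n + 1) ω') := rfl
    rw [h1, h2, h n (le_refl n), ih (n + 1) ω ω' (fun k hk => h k (by omega))]

end CODaux

theorem pCOD : G4 → COD := by
  intro h
  refine ⟨fun n => ?_, fun n ω => ?_, fun n ω => ?_, fun n ω ω' hω => ?_⟩
  · have hu : TendstoUniformly (fun (m : ℕ) (ω : Om) => app m n ω) (cod n) Filter.atTop := by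
      rw [Metric.tendstoUniformly_iff]
      intro ε hε
      have h1 : Filter.Tendsto (fun m : ℕ => 2 * (1 / 2 : ℝ) ^ m) Filter.atTop (nhds (2 * 0)) :=
        (tendsto_pow_atTop_nhds_zero_of_lt_one (by norm_num) (by norm_num)).const_mul 2
      rw [mul_zero] at h1
      filter_upwards [h1.eventually (gt_mem_nhds hε)] with m hm ω
      rw [dist_comm]
      exact lt_of_le_of_lt (CODaux.err h n ω m) hm
    exact hu.continuous (Filter.Frequently.of_forall fun m => CODaux.cont_app m n)
  · exact isClosed_Icc.mem_of_tendsto (CODaux.tend h n ω)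
      (Filter.Eventually.of_forall fun m => CODaux.app_mem m n ω)
  · have h1 : Filter.Tendsto (fun m => app (m + 1) n ω) Filter.atTop (nhds (cod n ω)) :=
      (CODaux.tend h n ω).comp (Filter.tendsto_add_atTop_nat 1)
    have h2 : Filter.Tendsto (fun m => app (m + 1) n ω) Filter.atTop
        (nhds (g n (ω n) (cod (n + 1) ω))) :=
      ((g_cont n (ω n)).tendsto _).comp (CODaux.tend h (n + 1) ω)
    exact tendsto_nhds_unique h1 h2
  · have h1 : (fun m => app m n ω) = fun m => app m n ω' := by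
      funext m
      exact CODaux.congr m n ω ω' hω
    unfold cod
    rw [h1]

end Pool.Agent.W401.EHM
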