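import Pool.Agent.W401.EHM.Stm

/-!
# Contraction of the coding (project EHM)
-/

namespace Pool.Agent.W401.EHM

theorem pCON : G4 → COD → CON := by
  intro h4 hc n m ω ω' hnm
  obtain ⟨d, rfl⟩ := Nat.exists_eq_add_of_le hnm
  clear hnm
  induction d generalizing n with
  | zero =>
    intro _
    have h1 := hc.2.1 n ω
    have h2 := hc.2.1 n ω'
    rw [Set.mem_Icc] at h1 h2
    simp only [add_zero, Finset.Ico_self, Finset.prod_empty, mul_one]
    rw [abs_le]
    constructor <;> linarith [h1.1, h1.2, h2.1, h2.2]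
  | succ d ih =>
    intro hω
    have e : ω n = ω' n := hω n le_rfl (by omega)
    have h3 := ih (n + 1) (fun k h1 h2 => hω k (by omega) (by omega))
    have h5 : n + 1 + d = n + (d + 1) := by ring
    rw [h5] at h3
    rw [hc.2.2.1 n ω, hc.2.2.1 n ω', ← e]
    refine (h4 n (ω n) _ (hc.2.1 _ _) _ (hc.2.1 _ _)).trans ?_
    rw [Finset.prod_eq_prod_Ico_succ_bot (by omega : n < n + (d + 1))]
    have h6 : (0 : ℝ) ≤ 2 / (N n : ℝ) ^ 3 := by positivity
    calc 2 / (N n : ℝ) ^ 3 * |cod (n + 1) ω - cod (n + 1) ω'|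
        ≤ 2 / (N n : ℝ) ^ 3 * (2 * ∏ k ∈ Finset.Ico (n + 1) (n + (d + 1)), (2 / (N k : ℝ) ^ 3)) :=
          mul_le_mul_of_nonneg_left h3 h6
      _ = _ := by ring

end Pool.Agent.W401.EHM
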