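import Pool.Agent.W401.EHM.Stm

/-!
# Measures of cylinders (project EHM)
-/

open MeasureTheory

namespace Pool.Agent.W401.EHM

namespace CYLaux

theorem unif_single (k : ℕ) (x : Fin (N k)) :
    unif k {x} = ENNReal.ofReal (1 / (N k : ℝ)) := by
  have h : (0 : ℝ) < N k := by exact_mod_cast N_pos k
  unfold unif
  rw [Measure.smul_apply, Measure.count_singleton, smul_eq_mul, mul_one, one_div,
    ENNReal.ofReal_inv_of_pos h, ENNReal.ofReal_natCast]

theorem unif_int (k a b : ℕ) (hab : a ≤ b) :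
    unif k {x : Fin (N k) | a ≤ (x : ℕ) ∧ (x : ℕ) ≤ b} ≤
      ENNReal.ofReal (((b : ℝ) - a + 1) / (N k : ℝ)) := by
  have h : (0 : ℝ) < N k := by exact_mod_cast N_pos k
  have hset : {x : Fin (N k) | a ≤ (x : ℕ) ∧ (x : ℕ) ≤ b} =
      ((Finset.univ.filter fun x : Fin (N k) => a ≤ (x : ℕ) ∧ (x : ℕ) ≤ b : Finset (Fin (N k))) :
        Set (Fin (N k))) := by
    ext x; simp
  have hcard : (Finset.univ.filter fun x : Fin (N k) => a ≤ (x : ℕ) ∧ (x : ℕ) ≤ b).card ≤
      b + 1 - a := by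
    rw [← Nat.card_Icc]
    refine Finset.card_le_card_of_injOn (fun x : Fin (N k) => (x : ℕ)) ?_ ?_
    · intro x hx
      rw [Finset.mem_coe, Finset.mem_filter] at hx
      rw [Finset.mem_coe, Finset.mem_Icc]
      exact hx.2
    · intro x _ y _ hxy
      exact Fin.ext hxy
  unfold unif
  rw [Measure.smul_apply, hset, Measure.count_apply_finset, smul_eq_mul]
  have h1 : ((b : ℝ) - a + 1) / (N k : ℝ) = (1 / (N k : ℝ)) * ((b + 1 - a : ℕ) : ℝ) := by
    rw [Nat.cast_sub (by omega)]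
    push_cast
    ring
  rw [h1, ENNReal.ofReal_mul (by positivity), one_div, ENNReal.ofReal_inv_of_pos h,
    ENNReal.ofReal_natCast, ENNReal.ofReal_natCast]
  gcongr

end CYLaux

open CYLaux in
theorem pCYL : CYL := by
  classical
  intro n m d a b hnm hab
  let t : ∀ k : ℕ, Set (Fin (N k)) := fun k =>
    if k = m then {x : Fin (N k) | a ≤ (x : ℕ) ∧ (x : ℕ) ≤ b} else {d k}
  have hsub : {ω : Om | (∀ k, n ≤ k → k < m → ω k = d k) ∧ a ≤ (ω m : ℕ) ∧ (ω m : ℕ) ≤ b} ⊆
      Set.pi (Finset.Ico n (m + 1) : Finset ℕ) t := by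
    rintro ω ⟨h1, h2⟩ k hk
    rw [Finset.mem_coe, Finset.mem_Ico] at hk
    show ω k ∈ (if k = m then {x : Fin (N k) | a ≤ (x : ℕ) ∧ (x : ℕ) ≤ b} else {d k})
    split_ifs with hkm
    · subst hkm
      exact h2
    · exact h1 k hk.1 (by omega)
  refine (measure_mono hsub).trans ?_
  unfold Pr
  rw [Measure.infinitePi_pi _ (fun i _ => (Set.toFinite _).measurableSet)]
  rw [Finset.prod_Ico_succ_top hnm, Finset.prod_Ico_succ_top hnm]
  have hp : ∀ k ∈ Finset.Ico n m, unif k (t k) = ENNReal.ofReal (1 / (N k : ℝ)) := by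
    intro k hk
    have hkm : k ≠ m := by
      have := (Finset.mem_Ico.mp hk).2
      omega
    have : t k = {d k} := if_neg hkm
    rw [this, unif_single]
  have hq : unif m (t m) ≤ ENNReal.ofReal (((b : ℝ) - a + 1) / (N m : ℝ)) := by
    have : t m = {x : Fin (N m) | a ≤ (x : ℕ) ∧ (x : ℕ) ≤ b} := if_pos rfl
    rw [this]
    exact unif_int m a b hab
  rw [Finset.prod_congr rfl hp, ← ENNReal.ofReal_prod_of_nonneg (fun i _ => by positivity)]
  refine (mul_le_mul_right hq _).trans ?_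
  rw [← ENNReal.ofReal_mul (Finset.prod_nonneg fun i _ => by positivity)]
  apply le_of_eq
  congr 1
  rw [Finset.prod_div_distrib, Finset.prod_const_one]
  rw [one_div, ← div_eq_inv_mul, div_div, mul_comm]

end Pool.Agent.W401.EHM
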