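import Pool.Agent.W401.EHM.Stm

/-!
# The Cantor set has positive dimension (project EHM, task DIM)
-/

open MeasureTheory

namespace Pool.Agent.W401.EHM

namespace DIMaux

/-- A set of finite diameter `d` lies in an interval of length `d`. -/
theorem subset_Icc {s : Set ℝ} (hs : s.Nonempty) (h : Metric.ediam s ≠ ⊤) :
    ∃ x : ℝ, s ⊆ Set.Icc x (x + (Metric.ediam s).toReal) := by
  have hb : Bornology.IsBounded s := Metric.isBounded_iff_ediam_ne_top.2 h
  refine ⟨sInf s, fun y hy => ?_⟩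
  have h1 : sInf s ≤ y := csInf_le hb.bddBelow hy
  refine ⟨h1, ?_⟩
  have h2 : ∀ z ∈ s, y - (Metric.ediam s).toReal ≤ z := by
    intro z hz
    have h3 : dist y z ≤ Metric.diam s := Metric.dist_le_diam_of_mem hb hy hz
    rw [Real.dist_eq] at h3
    have h4 := le_abs_self (y - z)
    have h5 : Metric.diam s = (Metric.ediam s).toReal := rfl
    linarith
  have h6 : y - (Metric.ediam s).toReal ≤ sInf s := le_csInf hs h2
  linarith

/-- Points are null sets. -/
theorem point (hH : HOL) (x : ℝ) : nu 0 {x} = 0 := by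
  have h1 : ∀ n : ℕ, nu 0 {x} ≤ ENNReal.ofReal (10 * ((1 : ℝ) / (n + 1)) ^ ((1 : ℝ) / 10)) := by
    intro n
    have hn : (0 : ℝ) < 1 / (n + 1) := by positivity
    refine le_trans (measure_mono ?_) (hH 0 x (1 / (n + 1)) hn)
    intro y hy
    rw [Set.mem_singleton_iff] at hy
    subst hy
    exact ⟨le_refl _, by linarith⟩
  have h2 : Filter.Tendsto
      (fun n : ℕ => ENNReal.ofReal (10 * ((1 : ℝ) / (n + 1)) ^ ((1 : ℝ) / 10)))
      Filter.atTop (nhds (ENNReal.ofReal (10 * 0 ^ ((1 : ℝ) / 10)))) := by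
    refine ENNReal.tendsto_ofReal (Filter.Tendsto.const_mul _ ?_)
    exact Filter.Tendsto.rpow_const tendsto_one_div_add_atTop_nhds_zero_nat (Or.inr (by norm_num))
  rw [Real.zero_rpow (by norm_num), mul_zero, ENNReal.ofReal_zero] at h2
  exact le_antisymm (ge_of_tendsto' h2 h1) zero_le

theorem bound (hH : HOL) (s : Set ℝ) (hs : Metric.ediam s ≤ 1) :
    nu 0 s ≤ 10 * Metric.ediam s ^ ((1 : ℝ) / 10) := by
  rcases s.eq_empty_or_nonempty with rfl | hne
  · simp
  have htop : Metric.ediam s ≠ ⊤ := (lt_of_le_of_lt hs ENNReal.one_lt_top).ne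
  obtain ⟨x, hx⟩ := subset_Icc hne htop
  rcases eq_or_lt_of_le (ENNReal.toReal_nonneg : 0 ≤ (Metric.ediam s).toReal) with h0 | h0
  · rw [← h0, add_zero, Set.Icc_self] at hx
    rw [measure_mono_null hx (point hH x)]
    exact zero_le
  · refine le_trans (measure_mono hx) (le_trans (hH 0 x _ h0) ?_)
    rw [ENNReal.ofReal_mul (by norm_num), ← ENNReal.ofReal_rpow_of_pos h0,
      ENNReal.ofReal_toReal htop]
    simp

end DIMaux

theorem pDIM : HOL → COD → DIM := by
  intro hH hC
  have hprob := hC.prob 0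
  have h1 : ((10 : ENNReal)⁻¹ • nu 0) ≤ Measure.hausdorffMeasure ((1 : ℝ) / 10) := by
    refine Measure.le_hausdorffMeasure _ _ 1 one_pos fun s hs => ?_
    rw [Measure.smul_apply, smul_eq_mul]
    calc (10 : ENNReal)⁻¹ * nu 0 s
        ≤ (10 : ENNReal)⁻¹ * (10 * Metric.ediam s ^ ((1 : ℝ) / 10)) := by
          gcongr
          exact DIMaux.bound hH s hs
      _ = Metric.ediam s ^ ((1 : ℝ) / 10) := by
          rw [← mul_assoc, ENNReal.inv_mul_cancel (by norm_num) (by norm_num), one_mul]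
  have h2 : nu 0 KK = 1 := by
    have h3 : nu 0 KK + nu 0 KKᶜ = nu 0 Set.univ :=
      measure_add_measure_compl hC.compact.measurableSet
    rw [hC.nu_KK, add_zero, measure_univ] at h3
    exact h3
  have h4 : Measure.hausdorffMeasure (((1 / 10 : NNReal)) : ℝ) KK ≠ 0 := by
    intro h0
    have h5 := h1 KK
    rw [Measure.smul_apply, smul_eq_mul, h2, mul_one] at h5
    have h6 : (((1 / 10 : NNReal)) : ℝ) = (1 : ℝ) / 10 := by norm_num
    rw [h6] at h0
    rw [h0] at h5
    simp at h5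
  have h7 := le_dimH_of_hausdorffMeasure_ne_zero h4
  intro h8
  rw [h8] at h7
  simp at h7

end Pool.Agent.W401.EHM
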