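import Pool.Agent.W401.EHM.Stm

/-!
Project EHM (helper401), part EINT (helper701): the logarithmic kernel is integrable.
-/

open MeasureTheory

namespace Pool.Agent.W401.EHM.EINTaux

theorem meas_log : Measurable (fun p : ℝ × ℝ => Real.log |p.1 - p.2|) := by
  have h : Measurable (fun p : ℝ × ℝ => |p.1 - p.2|) := (continuous_fst.sub continuous_snd).abs.measurable
  exact Real.measurable_log.comp h

end Pool.Agent.W401.EHM.EINTaux

namespace Pool.Agent.W401.EHM

open EINTaux in
theorem pEINT : HOL → POT → COD → EINT := by
  intro hH hP hC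
  have hprob := hC.prob 0
  have key := hP (nu 0) (hC.prob 0) (hC.supp 0) (hH 0)
  have hae : ∀ᵐ x ∂(nu 0), x ∈ Set.Icc (-1 : ℝ) 1 := by
    rw [ae_iff]; exact hC.supp 0
  constructor
  · have hs : MeasurableSet {p : ℝ × ℝ | p.1 = p.2} :=
      measurableSet_eq_fun measurable_fst measurable_snd
    rw [Measure.measure_prod_null hs]
    filter_upwards [hae] with x hx
    have e : Prod.mk x ⁻¹' {p : ℝ × ℝ | p.1 = p.2} = {x} := by
      ext y
      simp only [Set.mem_preimage, Set.mem_ofPred_eq, Set.mem_singleton_iff]
      exact eq_comm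
    rw [e]
    exact (key x hx).1
  · have hm : AEStronglyMeasurable (fun p : ℝ × ℝ => Real.log |p.1 - p.2|) ((nu 0).prod (nu 0)) :=
      meas_log.aestronglyMeasurable
    rw [integrable_prod_iff hm]
    refine ⟨?_, ?_⟩
    · filter_upwards [hae] with x hx
      exact (key x hx).2.1
    · refine (integrable_const (1000 : ℝ)).mono' hm.norm.integral_prod_right' ?_
      filter_upwards [hae] with x hx
      have h := (key x hx).2.2
      rw [Real.norm_of_nonneg (integral_nonneg fun y => norm_nonneg _)]
      simpa [Real.norm_eq_abs] using h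

end Pool.Agent.W401.EHM
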