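import Pool.Agent.W401.EHM.Stm

set_option autoImplicit false

open MeasureTheory

namespace Pool.Agent.W401.EHM.FLATaux

theorem prod_two (m : ℕ) : ∏ k ∈ Finset.range m, ((N k : ℝ) ^ 4 * (2 / (N k : ℝ) ^ 3)) = (N m : ℝ) / 16 := by
  have h := N_prod m
  have h2 : (16 : ℝ) * ∏ j ∈ Finset.range m, (2 * (N j : ℝ)) = N m := by exact_mod_cast h
  rw [← h2]
  have h3 : ∀ k ∈ Finset.range m, ((N k : ℝ) ^ 4 * (2 / (N k : ℝ) ^ 3)) = 2 * (N k : ℝ) := by
    intro k _
    have : (N k : ℝ) ≠ 0 := by exact_mod_cast (N_pos k).ne'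
    field_simp
  rw [Finset.prod_congr rfl h3]
  ring

noncomputable def len (n : ℕ) : ℝ := 2 * ∏ k ∈ Finset.range n, (2 / (N k : ℝ) ^ 3)

theorem fac_le (k : ℕ) : 2 / (N k : ℝ) ^ 3 ≤ 1 := by
  have h : (16 : ℝ) ≤ N k := by exact_mod_cast N_ge k
  have h2 : (16 : ℝ) ^ 3 ≤ (N k : ℝ) ^ 3 := pow_le_pow_left₀ (by norm_num) h 3
  rw [div_le_one (by positivity)]
  linarith

theorem len_pos (n : ℕ) : 0 < len n := by
  unfold len
  apply mul_pos two_pos
  apply Finset.prod_pos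
  intro k _
  have : 0 < (N k : ℝ) := by exact_mod_cast N_pos k
  positivity

theorem len_succ (n : ℕ) : len (n + 1) ≤ len n := by
  have h1 : len (n + 1) = len n * (2 / (N n : ℝ) ^ 3) := by
    unfold len
    rw [Finset.prod_range_succ]
    ring
  rw [h1]
  exact mul_le_of_le_one_right (len_pos n).le (fac_le n)

theorem len_anti : Antitone len := antitone_nat_of_succ_le len_succ

theorem agree (hS : SEP) {n : ℕ} {ω ω' : Om} (hd : |cod 0 ω - cod 0 ω'| ≤ len n) :
    ∀ k < n, ω k = ω' k := by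
  intro m
  induction m using Nat.strong_induction_on with
  | _ m ih =>
    intro hm
    by_contra hne
    have h1 := hS 0 m ω ω' (Nat.zero_le _) (fun k _ hk => ih k hk (hk.trans hm))
    have hN : 0 < (N m : ℝ) := by exact_mod_cast N_pos m
    have h2 : (1 : ℝ) ≤ (((ω m : ℕ) : ℝ) - ((ω' m : ℕ) : ℝ)) ^ 2 := by
      have h3 : ((ω m : ℕ) : ℤ) - ((ω' m : ℕ) : ℤ) ≠ 0 := by
        intro h
        apply hne
        apply Fin.ext
        omega
      have h4 : 1 ≤ (((ω m : ℕ) : ℤ) - ((ω' m : ℕ) : ℤ)) ^ 2 := by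
        have := sq_pos_of_ne_zero h3
        omega
      exact_mod_cast h4
    have h5 : |cod 0 ω - cod 0 ω'| ≤ len (m + 1) := hd.trans (len_anti hm)
    have h6 : (∏ k ∈ Finset.Ico 0 m, (N k : ℝ) ^ 4) * |cod 0 ω - cod 0 ω'| ≤
        (∏ k ∈ Finset.Ico 0 m, (N k : ℝ) ^ 4) * len (m + 1) :=
      mul_le_mul_of_nonneg_left h5 (Finset.prod_nonneg fun k _ => by positivity)
    have h7 : (∏ k ∈ Finset.Ico 0 m, (N k : ℝ) ^ 4) * len (m + 1) = 1 / (4 * (N m : ℝ) ^ 2) := by
      have e1 : (∏ k ∈ Finset.Ico 0 m, (N k : ℝ) ^ 4) * len (m + 1) =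
          (∏ k ∈ Finset.range m, ((N k : ℝ) ^ 4 * (2 / (N k : ℝ) ^ 3))) * (4 / (N m : ℝ) ^ 3) := by
        unfold len
        rw [Finset.prod_range_succ, Finset.prod_mul_distrib, Finset.range_eq_Ico]
        ring
      rw [e1, prod_two]
      field_simp
      norm_num
    have h8 : 1 / (2 * (N m : ℝ) ^ 2) ≤
        (((ω m : ℕ) : ℝ) - ((ω' m : ℕ) : ℝ)) ^ 2 / (2 * (N m : ℝ) ^ 2) :=
      div_le_div_of_nonneg_right h2 (by positivity)
    have h9 : 1 / (2 * (N m : ℝ) ^ 2) ≤ 1 / (4 * (N m : ℝ) ^ 2) := by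
      rw [← h7]
      exact h8.trans (h1.trans h6)
    have h10 : 1 / (4 * (N m : ℝ) ^ 2) < 1 / (2 * (N m : ℝ) ^ 2) := by
      apply one_div_lt_one_div_of_lt (by positivity)
      have : 0 < (N m : ℝ) ^ 2 := by positivity
      linarith
    linarith

end Pool.Agent.W401.EHM.FLATaux

namespace Pool.Agent.W401.EHM
open FLATaux

theorem pFLAT : SEP → CYL → COD → FLAT := by
  intro hS hC hD n x
  rcases n with _ | p
  · have := hD.prob 0
    simp only [Finset.range_zero, Finset.prod_empty, mul_one, div_one, ENNReal.ofReal_one]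
    exact prob_le_one
  · rw [hD.nu_apply 0 measurableSet_Icc]
    by_cases hne : (cod 0 ⁻¹' Set.Icc x (x + 2 * ∏ k ∈ Finset.range (p + 1), (2 / (N k : ℝ) ^ 3))).Nonempty
    · obtain ⟨ω0, h0⟩ := hne
      have hsub : (cod 0 ⁻¹' Set.Icc x (x + 2 * ∏ k ∈ Finset.range (p + 1), (2 / (N k : ℝ) ^ 3))) ⊆
          {ω : Om | (∀ k, 0 ≤ k → k < p → ω k = ω0 k) ∧ (ω0 p : ℕ) ≤ (ω p : ℕ) ∧
            (ω p : ℕ) ≤ (ω0 p : ℕ)} := by
        intro ω hω
        have hd : |cod 0 ω - cod 0 ω0| ≤ len (p + 1) := by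
          have a1 := h0
          have a2 := hω
          simp only [Set.mem_preimage, Set.mem_Icc] at a1 a2
          have a3 : len (p + 1) = 2 * ∏ k ∈ Finset.range (p + 1), (2 / (N k : ℝ) ^ 3) := rfl
          rw [a3, abs_le]
          constructor <;> linarith
        have hag := agree hS hd
        refine ⟨fun k _ hk => hag k (by omega), ?_, ?_⟩
        · rw [hag p (by omega)]
        · rw [hag p (by omega)]
      refine (measure_mono hsub).trans ?_
      have h := hC 0 p ω0 (ω0 p : ℕ) (ω0 p : ℕ) (Nat.zero_le _) le_rfl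
      rw [sub_self, zero_add] at h
      rw [Finset.range_eq_Ico]
      exact h
    · rw [Set.not_nonempty_iff_eq_empty] at hne
      rw [hne, measure_empty]
      exact bot_le

end Pool.Agent.W401.EHM
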