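import Pool.Agent.W401.EHM.Stm

/-!
# G1: the branches are inverse branches
-/

open MeasureTheory

namespace Pool.Agent.W401.EHM

namespace G1aux

theorem cos_nat_pi_add (j : ℕ) (a : ℝ) : Real.cos (j * Real.pi + a) = (-1) ^ j * Real.cos a := by
  induction j with
  | zero => simp
  | succ j ih =>
    have : (((j + 1 : ℕ) : ℝ)) * Real.pi + a = (j * Real.pi + a) + Real.pi := by push_cast; ring
    rw [this, Real.cos_add_pi, ih, pow_succ]
    ring

theorem abs_arg (k j : ℕ) {y : ℝ} (hy : y ∈ Set.Icc (-1 : ℝ) 1) :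
    |(-1) ^ j * (y / (N k : ℝ) ^ 2)| ≤ 1 := by
  have hN : (1 : ℝ) ≤ (N k : ℝ) ^ 2 := by
    have : (16 : ℝ) ≤ N k := by exact_mod_cast N_ge k
    nlinarith
  rw [abs_mul, abs_pow, abs_neg, abs_one, one_pow, one_mul, abs_div,
    abs_of_nonneg (by positivity : (0 : ℝ) ≤ (N k : ℝ) ^ 2), div_le_one (by linarith)]
  have := abs_le.2 ⟨hy.1, hy.2⟩
  linarith

end G1aux

open G1aux

theorem pG1 : G1 := by
  intro k j hj y hy
  have hN : (0 : ℝ) < N k := by exact_mod_cast N_pos k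
  have harg := abs_le.1 (abs_arg k j hy)
  set a : ℝ := Real.arccos ((-1) ^ j * (y / (N k : ℝ) ^ 2)) with ha
  have ha0 : 0 ≤ a := Real.arccos_nonneg _
  have ha1 : a ≤ Real.pi := Real.arccos_le_pi _
  have hca : Real.cos a = (-1) ^ j * (y / (N k : ℝ) ^ 2) := Real.cos_arccos harg.1 harg.2
  unfold F g
  rw [← ha]
  have hpi := Real.pi_pos
  have h0 : 0 ≤ (j * Real.pi + a) / N k := by positivity
  have h1 : (j * Real.pi + a) / N k ≤ Real.pi := by
    rw [div_le_iff₀ hN]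
    have : (j : ℝ) + 1 ≤ N k := by exact_mod_cast hj
    nlinarith
  rw [Real.arccos_cos h0 h1, mul_div_cancel₀ _ hN.ne', cos_nat_pi_add, hca, ← mul_assoc ((-1) ^ j),
    ← pow_add, ← two_mul, pow_mul, neg_one_sq, one_pow, one_mul]
  field_simp

end Pool.Agent.W401.EHM
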