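import Pool.Agent.W401.EHM.Stm

/-!
# Separation of the inverse branches (project EHM, step G2)
-/

open MeasureTheory

namespace Pool.Agent.W401.EHM

namespace G2aux

theorem arccos_half : Real.arccos (1 / 2) = Real.pi / 3 := by
  rw [← Real.cos_pi_div_three]
  exact Real.arccos_cos (by positivity) (by linarith [Real.pi_pos])

theorem arccos_neg_half : Real.arccos (-(1 / 2)) = Real.pi - Real.pi / 3 := by
  rw [Real.arccos_neg, arccos_half]

theorem arccos_bd {u : ℝ} (h : |u| ≤ 1 / 2) :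
    Real.pi / 3 ≤ Real.arccos u ∧ Real.arccos u ≤ Real.pi - Real.pi / 3 := by
  obtain ⟨h1, h2⟩ := abs_le.1 h
  constructor
  · rw [← arccos_half]; exact Real.arccos_le_arccos h2
  · rw [← arccos_neg_half]; exact Real.arccos_le_arccos h1

theorem arg_bd (k j : ℕ) {y : ℝ} (hy : y ∈ Set.Icc (-1 : ℝ) 1) :
    |(-1) ^ j * (y / (N k : ℝ) ^ 2)| ≤ 1 / 2 := by
  have hN : (16 : ℝ) ≤ N k := by exact_mod_cast N_ge k
  rw [abs_mul, abs_pow, abs_neg, abs_one, one_pow, one_mul, abs_div]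
  have h1 : |y| ≤ 1 := abs_le.2 hy
  have h2 : (2 : ℝ) ≤ |(N k : ℝ) ^ 2| := by
    rw [abs_of_nonneg (by positivity)]; nlinarith
  rw [div_le_div_iff₀ (by linarith) (by norm_num)]
  nlinarith

/-- Lower bound for the difference of cosines. -/
theorem cos_diff {α β : ℝ} (h0 : 0 ≤ α) (h1 : α < β) (h2 : β ≤ Real.pi) :
    2 * ((β - α) / Real.pi) ^ 2 ≤ |Real.cos α - Real.cos β| := by
  have hpi := Real.pi_pos
  have hs : Real.sin ((β - α) / 2) ≤ Real.sin ((α + β) / 2) := by
    rcases le_total ((α + β) / 2) (Real.pi / 2) with h | h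
    · exact Real.sin_le_sin_of_le_of_le_pi_div_two (by linarith) h (by linarith)
    · rw [← Real.sin_pi_sub ((α + β) / 2)]
      exact Real.sin_le_sin_of_le_of_le_pi_div_two (by linarith) (by linarith) (by linarith)
  have hj : 2 / Real.pi * ((β - α) / 2) ≤ Real.sin ((β - α) / 2) :=
    Real.mul_le_sin (by linarith) (by linarith)
  have he : 2 / Real.pi * ((β - α) / 2) = (β - α) / Real.pi := by field_simp
  rw [he] at hj
  have hp : 0 ≤ (β - α) / Real.pi := by
    apply div_nonneg <;> linarith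
  have hc : Real.cos α - Real.cos β
      = 2 * Real.sin ((α + β) / 2) * Real.sin ((β - α) / 2) := by
    rw [Real.cos_sub_cos]
    have : (α - β) / 2 = -((β - α) / 2) := by ring
    rw [this, Real.sin_neg]; ring
  rw [hc]
  have : 2 * ((β - α) / Real.pi) ^ 2
      ≤ 2 * Real.sin ((α + β) / 2) * Real.sin ((β - α) / 2) := by
    have := mul_le_mul (hj.trans hs) hj hp (hp.trans (hj.trans hs))
    nlinarith
  exact this.trans (le_abs_self _)

end G2aux

open G2aux in
theorem pG2 : G2 := by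
  intro k i j hij hj y hy z hz
  unfold g
  obtain ⟨a1, a2⟩ := arccos_bd (arg_bd k i hy)
  obtain ⟨b1, b2⟩ := arccos_bd (arg_bd k j hz)
  generalize Real.arccos ((-1) ^ i * (y / (N k : ℝ) ^ 2)) = a at *
  generalize Real.arccos ((-1) ^ j * (z / (N k : ℝ) ^ 2)) = b at *
  have hpi := Real.pi_pos
  have hN : (16 : ℝ) ≤ N k := by exact_mod_cast N_ge k
  have hN0 : (0 : ℝ) < N k := by linarith
  have hd : (i : ℝ) + 1 ≤ j := by exact_mod_cast hij
  have hjN : (j : ℝ) + 1 ≤ N k := by exact_mod_cast hj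
  have hi0 : (0 : ℝ) ≤ i := Nat.cast_nonneg _
  have e1 : 0 ≤ (i * Real.pi + a) / N k := by
    apply div_nonneg _ hN0.le
    have := mul_nonneg hi0 hpi.le
    linarith
  have key : 2 / 3 * ((j : ℝ) - i) * Real.pi ≤ (j * Real.pi + b) - (i * Real.pi + a) := by
    nlinarith
  have hdp : 0 < 2 / 3 * ((j : ℝ) - i) * Real.pi := by
    apply mul_pos _ hpi
    linarith
  have e2 : (i * Real.pi + a) / N k < (j * Real.pi + b) / N k := by
    apply div_lt_div_of_pos_right _ hN0
    linarith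
  have e3 : (j * Real.pi + b) / N k ≤ Real.pi := by
    rw [div_le_iff₀ hN0]
    nlinarith
  refine le_trans ?_ (cos_diff e1 e2 e3)
  have h3 : 2 / 3 * ((j : ℝ) - i) / N k
      ≤ ((j * Real.pi + b) / N k - (i * Real.pi + a) / N k) / Real.pi := by
    rw [← sub_div, le_div_iff₀ hpi, div_mul_eq_mul_div]
    exact div_le_div_of_nonneg_right key hN0.le
  have h4 : 0 ≤ 2 / 3 * ((j : ℝ) - i) / N k := by
    apply div_nonneg _ hN0.le
    linarith
  have h5 := pow_le_pow_left₀ h4 h3 2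
  refine le_trans ?_ (mul_le_mul_of_nonneg_left h5 (by norm_num : (0 : ℝ) ≤ 2))
  have h6 : 2 * (2 / 3 * ((j : ℝ) - i) / N k) ^ 2
      = (8 / 9) * (((j : ℝ) - i) ^ 2 / (N k : ℝ) ^ 2) := by ring
  have h7 : ((j : ℝ) - i) ^ 2 / (2 * (N k : ℝ) ^ 2)
      = (1 / 2) * (((j : ℝ) - i) ^ 2 / (N k : ℝ) ^ 2) := by ring
  rw [h6, h7]
  have : 0 ≤ ((j : ℝ) - i) ^ 2 / (N k : ℝ) ^ 2 := by positivity
  linarith

end Pool.Agent.W401.EHM
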