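import Pool.Agent.W401.EHM.Stm

/-!
# The maps are Lipschitz, so the inverse branches are expanding from below (step G3 of EHM)
-/

namespace Pool.Agent.W401.EHM

namespace G3aux

theorem abs_sin_nat (n : ℕ) (t : ℝ) : |Real.sin (n * t)| ≤ n * |Real.sin t| := by
  induction n with
  | zero => simp
  | succ n ih =>
    have h : ((n + 1 : ℕ) : ℝ) * t = n * t + t := by push_cast; ring
    rw [h, Real.sin_add]
    have h1 := abs_add_le (Real.sin (n * t) * Real.cos t) (Real.cos (n * t) * Real.sin t)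
    rw [abs_mul, abs_mul] at h1
    have h2 := mul_le_mul ih (Real.abs_cos_le_one t) (abs_nonneg _) (by positivity)
    have h3 := mul_le_mul_of_nonneg_right (Real.abs_cos_le_one (n * t)) (abs_nonneg (Real.sin t))
    push_cast
    linarith

theorem ang (n : ℕ) (α β : ℝ) :
    |Real.cos (n * α) - Real.cos (n * β)| ≤ (n : ℝ) ^ 2 * |Real.cos α - Real.cos β| := by
  rw [Real.cos_sub_cos, Real.cos_sub_cos]
  have e1 : ((n : ℝ) * α + n * β) / 2 = n * ((α + β) / 2) := by ring
  have e2 : ((n : ℝ) * α - n * β) / 2 = n * ((α - β) / 2) := by ring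
  rw [e1, e2]
  simp only [abs_mul, abs_neg]
  have h1 := abs_sin_nat n ((α + β) / 2)
  have h2 := abs_sin_nat n ((α - β) / 2)
  have h3 := mul_le_mul h1 h2 (abs_nonneg _) (by positivity)
  have h4 : |(2 : ℝ)| = 2 := by norm_num
  rw [h4]
  linarith

theorem lip (k : ℕ) (x x' : ℝ) (hx : x ∈ Set.Icc (-1 : ℝ) 1) (hx' : x' ∈ Set.Icc (-1 : ℝ) 1) :
    |F k x - F k x'| ≤ (N k : ℝ) ^ 4 * |x - x'| := by
  have h := ang (N k) (Real.arccos x) (Real.arccos x')
  rw [Real.cos_arccos hx.1 hx.2, Real.cos_arccos hx'.1 hx'.2] at h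
  unfold F
  rw [← mul_sub, abs_mul, abs_of_nonneg (by positivity)]
  calc _ ≤ (N k : ℝ) ^ 2 * ((N k : ℝ) ^ 2 * |x - x'|) :=
        mul_le_mul_of_nonneg_left h (by positivity)
    _ = _ := by ring

end G3aux

theorem pG3 : G1 → G3 := by
  intro h k j hj y hy z hz
  have h1 := G3aux.lip k (g k j y) (g k j z) (g_mem k j y) (g_mem k j z)
  rwa [h k j hj y hy, h k j hj z hz] at h1

end Pool.Agent.W401.EHM
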