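import Pool.Agent.W401.EHM.Stm

namespace Pool.Agent.W401.EHM

namespace G4aux

theorem cos_lip (u v : ℝ) : |Real.cos u - Real.cos v| ≤ |u - v| := by
  have h := Convex.norm_image_sub_le_of_norm_hasDerivWithin_le (f := Real.cos)
    (f' := fun x => -Real.sin x) (C := 1) (s := Set.univ) (x := v) (y := u)
    (fun x _ => (Real.hasDerivAt_cos x).hasDerivWithinAt)
    (fun x _ => by rw [norm_neg, Real.norm_eq_abs]; exact Real.abs_sin_le_one x)
    convex_univ (Set.mem_univ _) (Set.mem_univ _)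
  simpa [Real.norm_eq_abs] using h

theorem arccos_lip (s t : ℝ) (hs : s ∈ Set.Icc (-1 / 2 : ℝ) (1 / 2))
    (ht : t ∈ Set.Icc (-1 / 2 : ℝ) (1 / 2)) : |Real.arccos s - Real.arccos t| ≤ 2 * |s - t| := by
  have h := Convex.norm_image_sub_le_of_norm_hasDerivWithin_le (f := Real.arccos)
    (f' := fun x => -(1 / √(1 - x ^ 2))) (C := 2) (s := Set.Icc (-1 / 2 : ℝ) (1 / 2)) (x := t) (y := s)
    (fun x hx => (Real.hasDerivAt_arccos (by intro h; rw [h] at hx; linarith [hx.1])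
      (by intro h; rw [h] at hx; linarith [hx.2])).hasDerivWithinAt)
    (fun x hx => by
      rw [norm_neg, Real.norm_eq_abs, abs_of_nonneg (by positivity)]
      have h1 : (1 / 2 : ℝ) ≤ √(1 - x ^ 2) := by
        apply Real.le_sqrt_of_sq_le
        nlinarith [hx.1, hx.2]
      rw [div_le_iff₀ (by linarith)]
      linarith)
    (convex_Icc _ _) ht hs
  simpa [Real.norm_eq_abs] using h

end G4aux

theorem pG4 : G4 := by
  intro k j y hy z hz
  have hN : (16 : ℝ) ≤ N k := by exact_mod_cast N_ge k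
  have hN0 : (0 : ℝ) < N k := by linarith
  have hN2 : (0 : ℝ) < (N k : ℝ) ^ 2 := by positivity
  have hN2' : (256 : ℝ) ≤ (N k : ℝ) ^ 2 := by nlinarith
  have habs : ∀ w : ℝ, |(-1 : ℝ) ^ j * w| = |w| := by
    intro w; rw [abs_mul, abs_pow, abs_neg, abs_one, one_pow, one_mul]
  have hmem : ∀ w ∈ Set.Icc (-1 : ℝ) 1,
      (-1 : ℝ) ^ j * (w / (N k : ℝ) ^ 2) ∈ Set.Icc (-1 / 2 : ℝ) (1 / 2) := by
    intro w hw
    have h1 : |(-1 : ℝ) ^ j * (w / (N k : ℝ) ^ 2)| ≤ 1 / 2 := by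
      rw [habs, abs_div, abs_of_pos hN2, div_le_iff₀ hN2]
      have : |w| ≤ 1 := abs_le.2 hw
      linarith
    have h2 := abs_le.1 h1
    exact ⟨by linarith [h2.1], h2.2⟩
  unfold g
  refine (G4aux.cos_lip _ _).trans ?_
  have h1 := G4aux.arccos_lip _ _ (hmem y hy) (hmem z hz)
  have h2 : (j * Real.pi + Real.arccos ((-1) ^ j * (y / (N k : ℝ) ^ 2))) / N k -
      (j * Real.pi + Real.arccos ((-1) ^ j * (z / (N k : ℝ) ^ 2))) / N k =
      (Real.arccos ((-1) ^ j * (y / (N k : ℝ) ^ 2)) -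
        Real.arccos ((-1) ^ j * (z / (N k : ℝ) ^ 2))) / N k := by ring
  rw [h2, abs_div, abs_of_pos hN0, div_le_iff₀ hN0]
  refine h1.trans ?_
  have h3 : (-1 : ℝ) ^ j * (y / (N k : ℝ) ^ 2) - (-1 : ℝ) ^ j * (z / (N k : ℝ) ^ 2) =
      (-1 : ℝ) ^ j * ((y - z) / (N k : ℝ) ^ 2) := by ring
  rw [h3, habs, abs_div, abs_of_pos hN2]
  apply le_of_eq
  field_simp

end Pool.Agent.W401.EHM
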