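import Pool.Agent.W401.EHM.Stm

/-!
# The sum of the logarithms over the inverse branches (project EHM, step G5)
-/

open Polynomial

namespace Pool.Agent.W401.EHM

namespace G5aux

/-- A polynomial of degree `n` with `n` distinct roots is a product. -/
theorem eq_prod (n : ℕ) (Q : ℝ[X]) (hd : Q.natDegree = n) (hQ : Q ≠ 0) (r : ℕ → ℝ)
    (hr : ∀ j < n, Q.eval (r j) = 0) (hinj : ∀ i j, i < j → j < n → r i ≠ r j) :
    Q = C Q.leadingCoeff * ∏ j ∈ Finset.range n, (X - C (r j)) := by
  classical
  have hinj' : Set.InjOn r (Finset.range n : Finset ℕ) := by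
    intro i hi j hj hij
    rw [Finset.mem_coe, Finset.mem_range] at hi hj
    rcases lt_trichotomy i j with h | h | h
    · exact absurd hij (hinj i j h hj)
    · exact h
    · exact absurd hij.symm (hinj j i h hi)
  have hnd : ((Finset.range n).val.map r).Nodup := by
    refine Multiset.Nodup.map_on ?_ (Finset.range n).nodup
    intro i hi j hj hij
    exact hinj' hi hj hij
  have hsub : (Finset.range n).val.map r ≤ Q.roots := by
    rw [Multiset.le_iff_subset hnd]
    intro a ha
    rw [Multiset.mem_map] at ha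
    obtain ⟨j, hj, rfl⟩ := ha
    rw [Polynomial.mem_roots hQ]
    exact hr j (Finset.mem_range.1 hj)
  have hcard : Multiset.card Q.roots ≤ Multiset.card ((Finset.range n).val.map r) := by
    rw [Multiset.card_map, Finset.card_val, Finset.card_range, ← hd]
    exact Polynomial.card_roots' Q
  have heq : (Finset.range n).val.map r = Q.roots := Multiset.eq_of_le_of_card_le hsub hcard
  have hc : Multiset.card Q.roots = Q.natDegree := by
    rw [← heq, Multiset.card_map, Finset.card_val, Finset.card_range, hd]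
  have h := Polynomial.C_leadingCoeff_mul_prod_multiset_X_sub_C hc
  rw [← heq, Multiset.map_map] at h
  exact h.symm

/-- The polynomial. -/
noncomputable def Q (n : ℕ) (s : ℝ) : ℝ[X] :=
  C ((n : ℝ) ^ 2) * Polynomial.Chebyshev.T ℝ (n : ℤ) - C s

theorem Q_eval (n : ℕ) (s x : ℝ) (hx : x ∈ Set.Icc (-1 : ℝ) 1) :
    (Q n s).eval x = (n : ℝ) ^ 2 * Real.cos (n * Real.arccos x) - s := by
  have h := Polynomial.Chebyshev.T_real_cos (Real.arccos x) (n : ℤ)
  rw [Real.cos_arccos hx.1 hx.2] at h
  unfold Q
  rw [eval_sub, eval_mul, eval_C, eval_C, h]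
  push_cast
  ring

theorem nat_pos_aux (n : ℕ) (hn : 0 < n) : ((n : ℝ) ^ 2) ≠ 0 := by
  have : (0 : ℝ) < n := by exact_mod_cast hn
  positivity

theorem CT_natDegree (n : ℕ) (hn : 0 < n) :
    (C ((n : ℝ) ^ 2) * Polynomial.Chebyshev.T ℝ (n : ℤ)).natDegree = n := by
  rw [natDegree_C_mul (nat_pos_aux n hn), Polynomial.Chebyshev.natDegree_T]
  rfl

theorem Q_natDegree (n : ℕ) (hn : 0 < n) (s : ℝ) : (Q n s).natDegree = n := by
  unfold Q
  rw [natDegree_sub_C, CT_natDegree n hn]

theorem Q_lead (n : ℕ) (hn : 0 < n) (s : ℝ) :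
    (Q n s).leadingCoeff = (n : ℝ) ^ 2 * 2 ^ (n - 1) := by
  have hlt : (C s).degree < (C ((n : ℝ) ^ 2) * Polynomial.Chebyshev.T ℝ (n : ℤ)).degree := by
    refine lt_of_le_of_lt degree_C_le ?_
    rw [← natDegree_pos_iff_degree_pos, CT_natDegree n hn]
    exact hn
  unfold Q
  rw [leadingCoeff_sub_of_degree_lt hlt, leadingCoeff_mul, leadingCoeff_C,
    Polynomial.Chebyshev.leadingCoeff_T]
  rfl

end G5aux

open G5aux in
theorem pG5 : G1 → G2 → G5 := by
  intro h1 h2 k x hx s hs hne
  have hN : 0 < N k := N_pos k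
  have hQ0 : Q (N k) s ≠ 0 := by
    intro h
    have := Q_natDegree (N k) hN s
    rw [h, natDegree_zero] at this
    omega
  have hroot : ∀ j < N k, (Q (N k) s).eval (g k j s) = 0 := by
    intro j hj
    rw [Q_eval (N k) s _ (g_mem k j s)]
    have := h1 k j hj s hs
    unfold F at this
    rw [this, sub_self]
  have hdist : ∀ i j, i < j → j < N k → g k i s ≠ g k j s := by
    intro i j hij hj heq
    have := h2 k i j hij hj s hs s hs
    rw [heq, sub_self, abs_zero] at this
    have hN' : (0 : ℝ) < N k := by exact_mod_cast hN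
    have hij' : (i : ℝ) < j := by exact_mod_cast hij
    have hpos : 0 < ((j : ℝ) - i) ^ 2 / (2 * (N k : ℝ) ^ 2) := by
      apply div_pos
      · have : 0 < (j : ℝ) - i := by linarith
        positivity
      · positivity
    linarith
  have hprod := eq_prod (N k) (Q (N k) s) (Q_natDegree (N k) hN s) hQ0 (fun j => g k j s)
    hroot hdist
  have hev : F k x - s = ((N k : ℝ) ^ 2 * 2 ^ (N k - 1)) *
      ∏ j ∈ Finset.range (N k), (x - g k j s) := by
    have h := Q_eval (N k) s x hx
    rw [hprod, Q_lead (N k) hN s] at h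
    rw [eval_mul, eval_C, eval_prod] at h
    simp only [eval_sub, eval_X, eval_C] at h
    unfold F
    exact h.symm
  have hA : (0 : ℝ) < (N k : ℝ) ^ 2 * 2 ^ (N k - 1) := by
    have hN' : (0 : ℝ) < N k := by exact_mod_cast hN
    positivity
  have hfac : ∀ j ∈ Finset.range (N k), |x - g k j s| ≠ 0 := by
    intro j hj h0
    apply hne
    have : F k x - s = 0 := by
      rw [hev, Finset.prod_eq_zero hj (abs_eq_zero.1 h0), mul_zero]
    linarith
  rw [hev, abs_mul, abs_of_pos hA, Finset.abs_prod,
    Real.log_mul hA.ne' (Finset.prod_ne_zero_iff.2 hfac), Real.log_prod hfac]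
  ring

end Pool.Agent.W401.EHM
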