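import Pool.Agent.W401.EHM.Stm

/-!
# The modulus function of the equilibrium measure (project EHM, part HFN)
-/

open MeasureTheory Filter Topology

namespace Pool.Agent.W401.EHM

namespace HFNaux

/-- the largest measure of an interval of length `r` -/
noncomputable def hh (r : NNReal) : ENNReal := ⨆ x : ℝ, nu 0 (Set.Icc x (x + r))

theorem hh_le_one (hc : COD) (r : NNReal) : hh r ≤ 1 := by
  have := hc.prob 0
  exact iSup_le fun x => prob_le_one

theorem hh_ne_top (hc : COD) (r : NNReal) : hh r ≠ ⊤ :=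
  ne_top_of_le_ne_top ENNReal.one_ne_top (hh_le_one hc r)

theorem hh_mono : Monotone hh := by
  intro r s hrs
  refine iSup_mono fun x => measure_mono (Set.Icc_subset_Icc_right ?_)
  have : (r : ℝ) ≤ s := hrs
  linarith

theorem hh_hol (hH : HOL) (r : NNReal) (hr : 0 < r) :
    hh r ≤ ENNReal.ofReal (10 * (r : ℝ) ^ ((1 : ℝ) / 10)) :=
  iSup_le fun x => hH 0 x r hr

theorem hh_zero (hH : HOL) : hh 0 = 0 := by
  have h1 : ∀ r : NNReal, 0 < r → hh 0 ≤ ENNReal.ofReal (10 * (r : ℝ) ^ ((1 : ℝ) / 10)) :=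
    fun r hr => (hh_mono (show 0 ≤ r from zero_le)).trans (hh_hol hH r hr)
  have h2 : Tendsto (fun r : ℝ => ENNReal.ofReal (10 * r ^ ((1 : ℝ) / 10))) (𝓝[>] 0) (𝓝 0) := by
    have h3 : Continuous (fun r : ℝ => ENNReal.ofReal (10 * r ^ ((1 : ℝ) / 10))) := by
      apply ENNReal.continuous_ofReal.comp
      apply Continuous.mul continuous_const
      exact Real.continuous_rpow_const (by norm_num)
    have h4 := h3.tendsto 0
    rw [Real.zero_rpow (by norm_num), mul_zero, ENNReal.ofReal_zero] at h4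
    exact h4.mono_left nhdsWithin_le_nhds
  refine le_antisymm (ge_of_tendsto h2 ?_) zero_le
  filter_upwards [self_mem_nhdsWithin] with r hr
  have hr' : 0 < r := hr
  exact h1 ⟨r, hr'.le⟩ hr'

theorem hh_add (r s : NNReal) : hh (r + s) ≤ hh r + hh s := by
  refine iSup_le fun x => ?_
  have h1 : Set.Icc x (x + ((r + s : NNReal) : ℝ)) ⊆
      Set.Icc x (x + r) ∪ Set.Icc (x + r) (x + r + s) := by
    intro y hy
    rw [NNReal.coe_add, ← add_assoc] at hy
    rcases le_total y (x + r) with h | h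
    · exact Or.inl ⟨hy.1, h⟩
    · exact Or.inr ⟨h, hy.2⟩
  refine (measure_mono h1).trans ((measure_union_le _ _).trans (add_le_add ?_ ?_))
  · exact le_iSup (fun x : ℝ => nu 0 (Set.Icc x (x + r))) x
  · exact le_iSup (fun x : ℝ => nu 0 (Set.Icc x (x + s))) (x + r)

/-- the modulus function -/
noncomputable def h (r : NNReal) : NNReal := (hh r).toNNReal

theorem coe_h (hc : COD) (r : NNReal) : (h r : ENNReal) = hh r :=
  ENNReal.coe_toNNReal (hh_ne_top hc r)

theorem h_mono (hc : COD) : Monotone h := fun r s hrs => by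
  rw [← ENNReal.coe_le_coe, coe_h hc, coe_h hc]
  exact hh_mono hrs

theorem h_add (hc : COD) (r s : NNReal) : h (r + s) ≤ h r + h s := by
  rw [← ENNReal.coe_le_coe, ENNReal.coe_add, coe_h hc, coe_h hc, coe_h hc]
  exact hh_add r s

theorem h_zero (hH : HOL) : h 0 = 0 := by
  unfold h
  rw [hh_zero hH, ENNReal.toNNReal_zero]

theorem h_hol (hH : HOL) (hc : COD) (r : NNReal) :
    (h r : ℝ) ≤ 10 * (r : ℝ) ^ ((1 : ℝ) / 10) := by
  rcases eq_or_lt_of_le (show 0 ≤ r from zero_le) with h0 | h0
  · rw [← h0, h_zero hH, NNReal.coe_zero]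
    positivity
  · have h1 := hh_hol hH r h0
    rw [← coe_h hc] at h1
    have h2 : (0 : ℝ) ≤ 10 * (r : ℝ) ^ ((1 : ℝ) / 10) := by positivity
    have h3 := (ENNReal.toReal_le_toReal ENNReal.coe_ne_top ENNReal.ofReal_ne_top).2 h1
    rwa [ENNReal.toReal_ofReal h2, ENNReal.coe_toReal] at h3

theorem h_dist (hH : HOL) (hc : COD) (r s : NNReal) :
    dist (h r) (h s) ≤ 10 * (dist r s) ^ ((1 : ℝ) / 10) := by
  wlog hrs : r ≤ s generalizing r s with H
  · rw [dist_comm (h r), dist_comm r]
    exact H s r (le_of_not_ge hrs)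
  · have h1 : h s ≤ h r + h (s - r) := by
      have := h_add hc r (s - r)
      rwa [add_tsub_cancel_of_le hrs] at this
    have h2 : h r ≤ h s := h_mono hc hrs
    have h3 := h_hol hH hc (s - r)
    have h4 : (h s : ℝ) ≤ h r + h (s - r) := by exact_mod_cast h1
    have h5 : (h r : ℝ) ≤ h s := by exact_mod_cast h2
    have h6 : dist r s = ((s - r : NNReal) : ℝ) := by
      rw [NNReal.dist_eq, abs_sub_comm, NNReal.coe_sub hrs, abs_of_nonneg]
      exact sub_nonneg.2 hrs
    rw [h6, NNReal.dist_eq, abs_sub_comm, abs_of_nonneg (by linarith)]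
    linarith

theorem h_cont (hH : HOL) (hc : COD) : Continuous h := by
  rw [continuous_iff_continuousAt]
  intro r
  rw [ContinuousAt, tendsto_iff_dist_tendsto_zero]
  refine squeeze_zero (fun _ => dist_nonneg) (fun s => h_dist hH hc s r) ?_
  have h1 : Continuous (fun s : NNReal => 10 * (dist s r) ^ ((1 : ℝ) / 10)) := by
    apply Continuous.mul continuous_const
    exact (Real.continuous_rpow_const (by norm_num)).comp (continuous_id.dist continuous_const)
  have h2 := h1.tendsto r
  rwa [dist_self, Real.zero_rpow (by norm_num), mul_zero] at h2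

theorem h_set (hc : COD) (s : Set ℝ) (hs : Metric.ediam s ≤ 1) :
    nu 0 s ≤ (h (Metric.ediam s).toNNReal : ENNReal) := by
  rcases s.eq_empty_or_nonempty with h0 | hne
  · rw [h0, measure_empty]
    exact zero_le
  · have hd : Metric.ediam s ≠ ⊤ := ne_top_of_le_ne_top ENNReal.one_ne_top hs
    set d := (Metric.ediam s).toNNReal with hdd
    have hdist : ∀ y ∈ s, ∀ z ∈ s, y - z ≤ d := by
      intro y hy z hz
      have h1 := Metric.edist_le_ediam_of_mem hy hz
      rw [← ENNReal.coe_toNNReal hd, edist_nndist, ENNReal.coe_le_coe] at h1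
      have h2 : (nndist y z : ℝ) ≤ d := by exact_mod_cast h1
      rw [coe_nndist, Real.dist_eq] at h2
      exact (le_abs_self _).trans h2
    obtain ⟨a, ha⟩ := hne
    have hbdd : BddBelow s := ⟨a - d, fun z hz => by have := hdist a ha z hz; linarith⟩
    have hsub : s ⊆ Set.Icc (sInf s) (sInf s + d) := by
      intro y hy
      refine ⟨csInf_le hbdd hy, ?_⟩
      have : y - d ≤ sInf s := le_csInf ⟨a, ha⟩ fun z hz => by
        have := hdist y hy z hz; linarith
      linarith
    refine (measure_mono hsub).trans ?_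
    rw [coe_h hc]
    exact le_iSup (fun x : ℝ => nu 0 (Set.Icc x (x + d))) (sInf s)

end HFNaux

theorem pHFN : HOL → COD → HFN := by
  intro hH hc
  refine ⟨HFNaux.h, HFNaux.h_cont hH hc, HFNaux.h_mono hc, HFNaux.h_zero hH, HFNaux.h_set hc, ?_⟩
  intro r c hr
  rw [HFNaux.coe_h hc]
  exact iSup_le hr

end Pool.Agent.W401.EHM
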