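import Pool.Agent.W401.EHM.Stm

open MeasureTheory Filter Topology

namespace Pool.Agent.W401.EHM

namespace HOLaux

theorem le_of_sq_le_sq' {a b : ℝ} (h : a ^ 2 ≤ b ^ 2) (hb : 0 ≤ b) : a ≤ b := by
  by_contra hcon
  push Not at hcon
  nlinarith

theorem num (Q M d r : ℝ) (hQ : 1 ≤ Q) (hd : 1 ≤ d) (hdN : d + 1 ≤ M) (hr : 0 < r)
    (hsep : d ^ 2 / (2 * M ^ 2) ≤ Q ^ 4 * r) :
    (d + 1) / (Q * M) ≤ 10 * r ^ ((1 : ℝ) / 10) := by
  have hM : 0 < M := by linarith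
  have hQ0 : 0 < Q := by linarith
  have h1 : (d + 1) / (Q * M) ≤ 1 / Q := by
    rw [div_le_div_iff₀ (by positivity) hQ0]
    nlinarith
  rcases lt_or_ge 1 r with hr1 | hr1
  · have h2 : (1 : ℝ) ≤ r ^ ((1 : ℝ) / 10) := Real.one_le_rpow hr1.le (by norm_num)
    have h3 : 1 / Q ≤ 1 := by
      rw [div_le_one hQ0]; exact hQ
    linarith
  · set s := r ^ ((1 : ℝ) / 10) with hs
    have hs0 : 0 < s := Real.rpow_pos_of_pos hr _
    have hs1 : s ≤ 1 := Real.rpow_le_one hr.le hr1 (by norm_num)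
    have hsr : s ^ 10 = r := by
      rw [hs, ← Real.rpow_natCast, ← Real.rpow_mul hr.le]
      norm_num
    rcases le_or_gt (Q * s ^ 4) 1 with hQs | hQs
    · have h2 : (d / M) ^ 2 ≤ (2 * (Q ^ 2 * s ^ 5)) ^ 2 := by
        have : d ^ 2 / (2 * M ^ 2) = (d / M) ^ 2 / 2 := by
          field_simp
        rw [this, ← hsr] at hsep
        have e : Q ^ 4 * s ^ 10 = (Q ^ 2 * s ^ 5) ^ 2 := by ring
        rw [e] at hsep
        nlinarith [sq_nonneg (Q ^ 2 * s ^ 5)]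
      have h3 : d / M ≤ 2 * (Q ^ 2 * s ^ 5) := by
        exact le_of_sq_le_sq' h2 (by positivity)
      have h4 : (d + 1) / (Q * M) ≤ 2 * (d / M) / Q := by
        rw [div_le_div_iff₀ (by positivity) hQ0]
        have : 2 * (d / M) * (Q * M) = 2 * d * Q := by
          field_simp
        rw [this]
        nlinarith
      have h5 : 2 * (d / M) / Q ≤ 4 * (Q * s ^ 4) * s := by
        rw [div_le_iff₀ hQ0]
        nlinarith
      have h6 : 4 * (Q * s ^ 4) * s ≤ 4 * 1 * s := by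
        gcongr
      linarith
    · have h2 : 1 / Q ≤ s ^ 4 := by
        rw [div_le_iff₀ hQ0]; linarith
      have h3 : s ^ 4 ≤ s := by
        calc s ^ 4 = s * s ^ 3 := by ring
          _ ≤ s * 1 := by
            gcongr
            exact pow_le_one₀ hs0.le hs1
          _ = s := mul_one s
      linarith

theorem prod_ge (n p : ℕ) : (16 : ℝ) ^ p ≤ ∏ k ∈ Finset.Ico n (n + p), (N k : ℝ) := by
  have h : ∏ k ∈ Finset.Ico n (n + p), (16 : ℝ) ≤ ∏ k ∈ Finset.Ico n (n + p), (N k : ℝ) :=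
    Finset.prod_le_prod (fun _ _ => by norm_num) (fun k _ => by exact_mod_cast N_ge k)
  rw [Finset.prod_const, Nat.card_Ico] at h
  simpa using h

theorem case1 (hCYL : CYL) (n : ℕ) (S : Set Om)
    (h : ∀ m, n ≤ m → ∀ ω ∈ S, ∀ ω' ∈ S, ω m = ω' m) : Pr S = 0 := by
  rcases S.eq_empty_or_nonempty with hS | ⟨ω0, h0⟩
  · rw [hS, measure_empty]
  have key : ∀ p : ℕ, Pr S ≤ ENNReal.ofReal ((1 / 16) ^ (p + 1)) := by
    intro p
    have hc := hCYL n (n + p) ω0 (ω0 (n + p)) (ω0 (n + p)) (Nat.le_add_right _ _) le_rfl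
    refine le_trans (measure_mono ?_) (hc.trans ?_)
    · intro ω hω
      refine ⟨fun k hk _ => h k hk ω hω ω0 h0, ?_⟩
      rw [h (n + p) (Nat.le_add_right _ _) ω hω ω0 h0]
      exact ⟨le_rfl, le_rfl⟩
    · apply ENNReal.ofReal_le_ofReal
      have h1 := prod_ge n (p + 1)
      rw [← add_assoc] at h1
      rw [sub_self, zero_add, one_div_pow]
      exact one_div_le_one_div_of_le (by positivity) h1
  have ht : Tendsto (fun p : ℕ => ENNReal.ofReal ((1 / 16) ^ (p + 1))) atTop (𝓝 0) := by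
    have h1 : Tendsto (fun p : ℕ => ((1 : ℝ) / 16) ^ (p + 1)) atTop (𝓝 0) :=
      (tendsto_pow_atTop_nhds_zero_of_lt_one (by norm_num) (by norm_num)).comp
        (tendsto_add_atTop_nat 1)
    have := ENNReal.tendsto_ofReal h1
    simpa using this
  exact le_antisymm (ge_of_tendsto' ht key) (zero_le)

end HOLaux

open HOLaux

theorem pHOL : SEP → CYL → COD → HOL := by
  intro hSEP hCYL hCOD n x r hr
  rw [hCOD.nu_apply n measurableSet_Icc]
  set S : Set Om := cod n ⁻¹' Set.Icc x (x + r) with hSdef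
  by_cases hD : ∀ m, n ≤ m → ∀ ω ∈ S, ∀ ω' ∈ S, ω m = ω' m
  · rw [case1 hCYL n S hD]; exact zero_le
  push Not at hD
  classical
  have hD' : ∃ m, n ≤ m ∧ ∃ ω ∈ S, ∃ ω' ∈ S, ω m ≠ ω' m := hD
  set m := Nat.find hD' with hmdef
  obtain ⟨hnm, ω1, hω1, ω2, hω2, hne⟩ := Nat.find_spec hD'
  have hmin : ∀ k, n ≤ k → k < m → ∀ ω ∈ S, ∀ ω' ∈ S, ω k = ω' k := by
    intro k hk hkm ω hω ω' hω'
    by_contra hcon
    exact Nat.find_min hD' hkm ⟨hk, ω, hω, ω', hω', hcon⟩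
  -- extreme digits
  have hfin : (Set.range (fun ω : S => ((ω : Om) m : ℕ))).Finite :=
    (Set.finite_Iio (N m)).subset (by
      rintro _ ⟨ω, rfl⟩
      exact ((ω : Om) m).2)
  have hnonempty : (Set.range (fun ω : S => ((ω : Om) m : ℕ))).Nonempty := ⟨_, ⟨ω1, hω1⟩, rfl⟩
  obtain ⟨_, ⟨⟨α, hα⟩, rfl⟩, hαmin⟩ := Set.exists_min_image _ id hfin hnonempty
  obtain ⟨_, ⟨⟨β, hβ⟩, rfl⟩, hβmax⟩ := Set.exists_max_image _ id hfin hnonempty
  have hαm : ∀ ω ∈ S, (α m : ℕ) ≤ (ω m : ℕ) := fun ω hω => hαmin _ ⟨⟨ω, hω⟩, rfl⟩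
  have hβm : ∀ ω ∈ S, (ω m : ℕ) ≤ (β m : ℕ) := fun ω hω => hβmax _ ⟨⟨ω, hω⟩, rfl⟩
  have hlt : (α m : ℕ) < (β m : ℕ) := by
    by_contra hcon
    apply hne
    apply Fin.ext
    have a1 := hαm ω1 hω1
    have a2 := hαm ω2 hω2
    have a3 := hβm ω1 hω1
    have a4 := hβm ω2 hω2
    have : (ω1 m : ℕ) = (ω2 m : ℕ) := by omega
    exact this
  have hc := hCYL n m α (α m) (β m) hnm hlt.le
  refine le_trans (measure_mono ?_) (hc.trans (ENNReal.ofReal_le_ofReal ?_))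
  · intro ω hω
    exact ⟨fun k hk hkm => hmin k hk hkm ω hω α hα, hαm ω hω, hβm ω hω⟩
  have hsep := hSEP n m β α hnm (fun k hk hkm => hmin k hk hkm β hβ α hα)
  rw [Finset.prod_pow] at hsep
  rw [Finset.prod_Ico_succ_top hnm]
  have hQ : (1 : ℝ) ≤ ∏ k ∈ Finset.Ico n m, (N k : ℝ) := by
    obtain ⟨p, hp⟩ := Nat.exists_eq_add_of_le hnm
    have hp' : m = n + p := hp
    rw [hp']
    exact le_trans (one_le_pow₀ (by norm_num)) (prod_ge n p)
  have hdist : |cod n β - cod n α| ≤ r := by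
    rw [abs_le]
    obtain ⟨b1, b2⟩ := hβ
    obtain ⟨b3, b4⟩ := hα
    constructor <;> linarith
  apply num _ _ _ r hQ _ _ hr
  · exact hsep.trans (by gcongr)
  · have : ((α m : ℕ) : ℝ) + 1 ≤ ((β m : ℕ) : ℝ) := by exact_mod_cast hlt
    linarith
  · have h1 : ((β m : ℕ) : ℝ) + 1 ≤ N m := by exact_mod_cast (β m).2
    have h2 : (0 : ℝ) ≤ ((α m : ℕ) : ℝ) := Nat.cast_nonneg _
    linarith

end Pool.Agent.W401.EHM
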