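import Pool.Agent.W401.EHM.Stm

/-!
# The kernel of the logarithmic capacity (project EHM, part KER)
-/

open MeasureTheory Filter Topology

namespace Pool.Agent.W401.EHM

namespace KERaux

/-- the kernel with constant `D` -/
noncomputable def kap (D : ℝ) (p : ℝ × ℝ) : ENNReal :=
  if p.1 = p.2 then ⊤ else ENNReal.ofReal (D - Real.log (dist p.1 p.2))

theorem meas_diag : MeasurableSet {p : ℝ × ℝ | p.1 = p.2} :=
  (isClosed_eq continuous_fst continuous_snd).measurableSet

theorem meas_log : Measurable (fun p : ℝ × ℝ => Real.log |p.1 - p.2|) := by fun_prop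

theorem meas_kap (D : ℝ) : Measurable (kap D) := by
  unfold kap
  refine Measurable.ite meas_diag measurable_const ?_
  apply ENNReal.measurable_ofReal.comp
  exact measurable_const.sub (Real.measurable_log.comp (measurable_fst.dist measurable_snd))

theorem ae_K {K : Set ℝ} {ν : Measure ℝ} [IsProbabilityMeasure ν] (hν : ν Kᶜ = 0) :
    ∀ᵐ p ∂(ν.prod ν), p.1 ∈ K ∧ p.2 ∈ K := by
  have h1 : ∀ᵐ x ∂ν, x ∈ K := by rw [ae_iff]; exact hν
  have h2 := Measure.quasiMeasurePreserving_fst (μ := ν) (ν := ν) |>.ae h1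
  have h3 := Measure.quasiMeasurePreserving_snd (μ := ν) (ν := ν) |>.ae h1
  filter_upwards [h2, h3] with p hp hq
  exact ⟨hp, hq⟩

theorem nonneg {K : Set ℝ} (hK : IsCompact K) {x y : ℝ} (hx : x ∈ K) (hy : y ∈ K) :
    0 ≤ Real.log (Metric.diam K + 1) - Real.log |x - y| := by
  have h1 : |x - y| ≤ Metric.diam K := by
    rw [← Real.dist_eq]
    exact Metric.dist_le_diam_of_mem hK.isBounded hx hy
  have h0 : 0 ≤ Metric.diam K := Metric.diam_nonneg
  rcases eq_or_lt_of_le (abs_nonneg (x - y)) with h | h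
  · rw [← h, Real.log_zero, sub_zero]
    exact Real.log_nonneg (by linarith)
  · exact sub_nonneg.2 (Real.log_le_log h (by linarith))

end KERaux

open KERaux in
theorem pKER : KER := by
  intro K hK ν hν hνK
  set D := Real.log (Metric.diam K + 1) with hD
  have e1 : (∫⁻ x, ∫⁻ y, (if x = y then (⊤ : ENNReal)
      else ENNReal.ofReal (D - Real.log (dist x y))) ∂ν ∂ν) = ∫⁻ p, kap D p ∂(ν.prod ν) := by
    rw [lintegral_prod _ (meas_kap D).aemeasurable]
    rfl
  rw [e1]
  have hnn : ∀ᵐ p ∂(ν.prod ν), 0 ≤ D - Real.log |p.1 - p.2| := by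
    filter_upwards [ae_K hνK] with p hp
    exact nonneg hK hp.1 hp.2
  have hae : (ν.prod ν) {p : ℝ × ℝ | p.1 = p.2} = 0 →
      kap D =ᵐ[ν.prod ν] fun p => ENNReal.ofReal (D - Real.log |p.1 - p.2|) := by
    intro h0
    have h1 : ∀ᵐ p ∂(ν.prod ν), ¬ p.1 = p.2 := by
      rw [ae_iff]
      simpa using h0
    filter_upwards [h1] with p hp
    unfold kap
    rw [if_neg hp, Real.dist_eq]
  constructor
  · intro hfin
    have h0 : (ν.prod ν) {p : ℝ × ℝ | p.1 = p.2} = 0 := by
      have h1 := ae_lt_top (meas_kap D) hfin.ne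
      have h2 : ∀ᵐ p ∂(ν.prod ν), ¬ p.1 = p.2 := by
        filter_upwards [h1] with p hp heq
        unfold kap at hp
        rw [if_pos heq] at hp
        exact lt_irrefl _ hp
      rw [ae_iff] at h2
      simpa using h2
    refine ⟨h0, ?_⟩
    rw [lintegral_congr_ae (hae h0)] at hfin
    have h3 : Integrable (fun p : ℝ × ℝ => D - Real.log |p.1 - p.2|) (ν.prod ν) := by
      refine ⟨(measurable_const.sub meas_log).aestronglyMeasurable, ?_⟩
      rw [hasFiniteIntegral_iff_ofReal hnn]
      exact hfin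
    have h4 := (integrable_const D).sub h3
    refine h4.congr (Eventually.of_forall fun p => ?_)
    simp only [Pi.sub_apply]
    ring
  · intro hF
    rw [lintegral_congr_ae (hae hF.1)]
    have h3 : Integrable (fun p : ℝ × ℝ => D - Real.log |p.1 - p.2|) (ν.prod ν) :=
      (integrable_const D).sub hF.2
    rw [← ofReal_integral_eq_lintegral_ofReal h3 hnn, integral_sub (integrable_const D) hF.2]
    unfold I2
    simp

end Pool.Agent.W401.EHM
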