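import Pool.Agent.W401.EHM.Stm

/-!
# The measure `nu 0` maximises the energy (project EHM)
-/

open MeasureTheory

namespace Pool.Agent.W401.EHM

namespace MINaux

lemma aestr (μ : Measure (ℝ × ℝ)) :
    AEStronglyMeasurable (fun p : ℝ × ℝ => Real.log |p.1 - p.2|) μ := by
  have h : Measurable (fun p : ℝ × ℝ => Real.log |p.1 - p.2|) :=
    Real.measurable_log.comp (measurable_fst.sub measurable_snd).abs
  exact h.aestronglyMeasurable

lemma measD : MeasurableSet {p : ℝ × ℝ | p.1 = p.2} :=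
  measurableSet_eq_fun measurable_fst measurable_snd

/-- the mixed energy is finite -/
lemma fin2 {μ ν : Measure ℝ} [IsProbabilityMeasure μ] [IsProbabilityMeasure ν]
    (h : ∀ᵐ x ∂ν, μ {x} = 0 ∧ Integrable (fun y => Real.log |x - y|) μ ∧
      ∫ y, |(Real.log |x - y|)| ∂μ ≤ 1000) : Fin2 μ ν := by
  refine ⟨?_, ?_⟩
  · rw [Measure.prod_apply_symm measD]
    rw [lintegral_eq_zero_iff' (by
      exact (measurable_measure_prodMk_right measD).aemeasurable)]
    filter_upwards [h] with y hy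
    have e : (fun x : ℝ => (x, y)) ⁻¹' {p : ℝ × ℝ | p.1 = p.2} = {y} := by
      ext x
      simp
    rw [e, hy.1]
    rfl
  · have h1 : Integrable (fun p : ℝ × ℝ => Real.log |p.1 - p.2|) (ν.prod μ) := by
      rw [integrable_prod_iff (aestr _)]
      refine ⟨h.mono fun x hx => hx.2.1, ?_⟩
      refine Integrable.of_bound (aestr (ν.prod μ)).norm.integral_prod_right' 1000 ?_
      filter_upwards [h] with x hx
      rw [Real.norm_of_nonneg (integral_nonneg fun y => norm_nonneg _)]
      exact hx.2.2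
    have h2 := h1.swap
    refine h2.congr (Filter.Eventually.of_forall fun p => ?_)
    simp only [Function.comp, Prod.fst_swap, Prod.snd_swap]
    rw [abs_sub_comm]

end MINaux

theorem pMIN : UCO → NEG → HOL → POT → COD → EINT → MIN := by
  intro hU hNEG hHOL hPOT hCOD hE ν hν hνK hνν
  haveI := hν
  haveI hμ : IsProbabilityMeasure (nu 0) := hCOD.prob 0
  have hμI : nu 0 (Set.Icc (-1 : ℝ) 1)ᶜ = 0 := hCOD.supp 0
  have hνI : ν (Set.Icc (-1 : ℝ) 1)ᶜ = 0 :=
    measure_mono_null (Set.compl_subset_compl.2 hCOD.sub) hνK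
  have hpot := hPOT (nu 0) hμ hμI (hHOL 0)
  have hνae : ∀ᵐ x ∂ν, x ∈ KK := by
    rw [ae_iff]
    exact hνK
  have hμae : ∀ᵐ x ∂(nu 0), x ∈ KK := by
    rw [ae_iff]
    exact hCOD.nu_KK
  have hF : Fin2 (nu 0) ν := MINaux.fin2 (hνae.mono fun x hx => hpot x (hCOD.sub hx))
  set c : ℝ := U 0 (cod 0 (fun k => 0)) with hc
  have hconst : ∀ x ∈ KK, U 0 x = c := fun x hx => hU x hx _ ⟨_, rfl⟩
  have h1 : I2 (nu 0) ν = c := by
    rw [I2, integral_prod_symm _ hF.2]
    have e : ∀ᵐ y ∂ν, ∫ x, Real.log |x - y| ∂(nu 0) = c := by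
      filter_upwards [hνae] with y hy
      rw [← hconst y hy, U]
      refine integral_congr_ae (Filter.Eventually.of_forall fun x => ?_)
      simp only
      rw [abs_sub_comm]
    rw [integral_congr_ae e]
    simp
  have h2 : I2 (nu 0) (nu 0) = c := by
    rw [I2, integral_prod _ hE.2]
    have e : ∀ᵐ x ∂(nu 0), ∫ y, Real.log |x - y| ∂(nu 0) = c := by
      filter_upwards [hμae] with x hx
      rw [← hconst x hx, U]
    rw [integral_congr_ae e]
    simp
  have h3 := hNEG (nu 0) ν hμ hν hμI hνI hE hνν hF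
  rw [h1, h2] at h3
  rw [h2]
  linarith

end Pool.Agent.W401.EHM
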