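import Pool.Agent.W401.EHM.Stm

open MeasureTheory Filter Topology

namespace Pool.Agent.W401.EHM

namespace MKMaux

/-- The lengths of the cylinders. -/
noncomputable def ell (n : ℕ) : ℝ := 2 * ∏ k ∈ Finset.range n, (2 / (N k : ℝ) ^ 3)

theorem ell_nonneg (n : ℕ) : 0 ≤ ell n := by
  unfold ell; positivity

theorem fac_le (k : ℕ) : 2 / (N k : ℝ) ^ 3 ≤ 1 / 2 := by
  have h : (16 : ℝ) ≤ N k := by exact_mod_cast N_ge k
  rw [div_le_div_iff₀ (by positivity) (by norm_num)]
  nlinarith [pow_le_pow_left₀ (by norm_num) h 3]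

theorem ell_le (n : ℕ) : ell n ≤ 2 * (1 / 2) ^ n := by
  unfold ell
  have : ∏ k ∈ Finset.range n, (2 / (N k : ℝ) ^ 3) ≤ ∏ k ∈ Finset.range n, (1 / 2 : ℝ) :=
    Finset.prod_le_prod (fun _ _ => by positivity) (fun k _ => fac_le k)
  rw [Finset.prod_const, Finset.card_range] at this
  linarith

theorem ell_tendsto : Tendsto ell atTop (𝓝 0) := by
  have h : Tendsto (fun n : ℕ => 2 * (1 / 2 : ℝ) ^ n) atTop (𝓝 (2 * 0)) :=
    (tendsto_pow_atTop_nhds_zero_of_lt_one (by norm_num) (by norm_num)).const_mul 2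
  rw [mul_zero] at h
  exact squeeze_zero ell_nonneg ell_le h

/-- The cylinders. -/
def cyl (n : ℕ) (i : ∀ k : Fin n, Fin (N k)) : Set ℝ :=
  cod 0 '' {ω : Om | ∀ k : Fin n, ω k = i k}

theorem ediam_cyl (hCON : CON) (n : ℕ) (i : ∀ k : Fin n, Fin (N k)) :
    Metric.ediam (cyl n i) ≤ ENNReal.ofReal (ell n) := by
  apply Metric.ediam_le
  rintro _ ⟨ω, hω, rfl⟩ _ ⟨ω', hω', rfl⟩
  rw [edist_dist, Real.dist_eq]
  apply ENNReal.ofReal_le_ofReal
  have := hCON 0 n ω ω' (Nat.zero_le _)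
    (fun k _ hk => (hω ⟨k, hk⟩).trans (hω' ⟨k, hk⟩).symm)
  simpa [ell] using this

theorem mass (hFLAT : FLAT) (hCON : CON) (h : NNReal → NNReal) (hm : Monotone h)
    (hc : ∀ (r : NNReal) (c : ENNReal), (∀ x : ℝ, nu 0 (Set.Icc x (x + r)) ≤ c) →
      (h r : ENNReal) ≤ c) (n : ℕ) :
    ∑ i, ((h (Metric.ediam (cyl n i)).toNNReal : NNReal) : ENNReal) ≤ 1 := by
  have hP : (0 : ℝ) < ∏ k ∈ Finset.range n, (N k : ℝ) :=
    Finset.prod_pos fun k _ => by exact_mod_cast N_pos k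
  have h1 : ∀ i : (∀ k : Fin n, Fin (N k)),
      ((h (Metric.ediam (cyl n i)).toNNReal : NNReal) : ENNReal)
        ≤ ENNReal.ofReal (1 / ∏ k ∈ Finset.range n, (N k : ℝ)) := by
    intro i
    have h2 : (Metric.ediam (cyl n i)).toNNReal ≤ (ell n).toNNReal := by
      have := ENNReal.toNNReal_mono ENNReal.ofReal_ne_top (ediam_cyl hCON n i)
      simpa [ENNReal.ofReal] using this
    refine le_trans (ENNReal.coe_le_coe.2 (hm h2)) ?_
    apply hc
    intro x
    have := hFLAT n x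
    rw [Real.coe_toNNReal _ (ell_nonneg n)]
    exact this
  refine (Finset.sum_le_sum fun i _ => h1 i).trans ?_
  rw [Finset.sum_const, Finset.card_univ, Fintype.card_pi]
  simp only [Fintype.card_fin]
  rw [Fin.prod_univ_eq_prod_range (fun k => N k) n, nsmul_eq_mul]
  rw [← ENNReal.ofReal_natCast, ← ENNReal.ofReal_mul (by positivity)]
  rw [← ENNReal.ofReal_one]
  apply ENNReal.ofReal_le_ofReal
  rw [Nat.cast_prod, mul_one_div, div_self hP.ne']

theorem KK_sub (n : ℕ) : KK ⊆ ⋃ i, cyl n i := by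
  rintro _ ⟨ω, rfl⟩
  exact Set.mem_iUnion.2 ⟨fun k => ω k, ω, fun k => rfl, rfl⟩

theorem H_KK (hFLAT : FLAT) (hCON : CON) (h : NNReal → NNReal) (hm : Monotone h)
    (hc : ∀ (r : NNReal) (c : ENNReal), (∀ x : ℝ, nu 0 (Set.Icc x (x + r)) ≤ c) →
      (h r : ENNReal) ≤ c) :
    (Measure.mkMetric (fun r : ENNReal => ((h r.toNNReal : NNReal) : ENNReal)) : Measure ℝ) KK
      ≤ 1 := by
  have hr : Tendsto (fun n => ENNReal.ofReal (ell n)) atTop (𝓝 0) := by
    have := ENNReal.tendsto_ofReal ell_tendsto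
    simpa using this
  refine (Measure.mkMetric_le_liminf_sum (ι := fun n : ℕ => (∀ k : Fin n, Fin (N k))) KK
    (fun n => ENNReal.ofReal (ell n)) hr (fun n i => cyl n i)
    (Eventually.of_forall fun n i => ediam_cyl hCON n i)
    (Eventually.of_forall fun n => KK_sub n)
    (fun r : ENNReal => ((h r.toNNReal : NNReal) : ENNReal))).trans ?_
  refine (liminf_le_liminf (Eventually.of_forall fun n => mass hFLAT hCON h hm hc n)).trans ?_
  simp

end MKMaux

open MKMaux

theorem pMKM : FLAT → CON → COD → MKM := by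
  intro hFLAT hCON hCOD h hm h0 h1 hc
  have := hCOD.prob 0
  set H : Measure ℝ :=
    Measure.mkMetric (fun r : ENNReal => ((h r.toNNReal : NNReal) : ENNReal)) with hH
  have hle : nu 0 ≤ H := Measure.le_mkMetric _ _ 1 one_pos h1
  have hK : MeasurableSet KK := hCOD.compact.measurableSet
  have hle2 : ∀ B, MeasurableSet B → nu 0 B ≤ H.restrict KK B := by
    intro B hB
    rw [Measure.restrict_apply hB]
    have e : nu 0 B = nu 0 (B ∩ KK) := by
      refine le_antisymm ?_ (measure_mono Set.inter_subset_left)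
      calc nu 0 B ≤ nu 0 ((B ∩ KK) ∪ KKᶜ) := measure_mono fun x hx => by
            by_cases hxK : x ∈ KK
            · exact Or.inl ⟨hx, hxK⟩
            · exact Or.inr hxK
        _ ≤ nu 0 (B ∩ KK) + nu 0 KKᶜ := measure_union_le _ _
        _ = nu 0 (B ∩ KK) := by rw [hCOD.nu_KK, add_zero]
    rw [e]
    exact hle _
  have htot : H.restrict KK Set.univ ≤ 1 := by
    rw [Measure.restrict_apply_univ]
    exact H_KK hFLAT hCON h hm hc
  ext B hB
  refine le_antisymm (hle2 B hB) ?_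
  have a1 : H.restrict KK B + H.restrict KK Bᶜ ≤ 1 := by
    rw [measure_add_measure_compl hB]; exact htot
  have a2 : nu 0 B + nu 0 Bᶜ = 1 := by
    rw [measure_add_measure_compl hB]; exact measure_univ
  have a3 := hle2 Bᶜ hB.compl
  have a4 : H.restrict KK B + nu 0 Bᶜ ≤ nu 0 B + nu 0 Bᶜ := by
    rw [a2]
    exact (add_le_add le_rfl a3).trans a1
  exact (ENNReal.add_le_add_iff_right (measure_ne_top _ _)).1 a4

end Pool.Agent.W401.EHM
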