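import Pool.Agent.W401.EHM.Stm
import Pool.Agent.W401.SSS.P.STRICT

/-! Project EHM: the logarithmic kernel is conditionally negative definite (by helper748). -/

set_option autoImplicit false

open MeasureTheory

namespace Pool.Agent.W401.EHM

namespace NEGaux

open Pool.Agent.W401.SSS Pool.Agent.W401.SSS.STRICTaux

/-- the inequality for measures on `[0,B]` -/
theorem neg_on {B : ℝ} {μ ν : Measure ℝ} (hμ : On B μ) (hν : On B ν) (h1 : Fin2 μ μ) (h2 : Fin2 ν ν)
    (h3 : Fin2 μ ν) : I2 μ μ + I2 ν ν - 2 * I2 μ ν ≤ 0 := by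
  have h4 := ((J_lim (sq_prod hμ hμ) h1.1 h1.2).add (J_lim (sq_prod hν hν) h2.1 h2.2)).sub
      ((J_lim (sq_prod hμ hν) h3.1 h3.2).const_mul 2)
  have h5 := le_of_tendsto' h4 (b := 0) fun n => by
    have h6 := Φ_le hμ hν (ρ := 1 / ((n : ℝ) + 1)) (by positivity)
    exact h6
  unfold I2
  linarith

/-- translation by one -/
noncomputable def T (μ : Measure ℝ) : Measure ℝ := μ.map (fun x => x + 1)

theorem T_prob (μ : Measure ℝ) [IsProbabilityMeasure μ] : IsProbabilityMeasure (T μ) :=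
  Measure.isProbabilityMeasure_map (by fun_prop)

theorem T_on {μ : Measure ℝ} [IsProbabilityMeasure μ] (h : μ (Set.Icc (-1 : ℝ) 1)ᶜ = 0) : On 2 (T μ) := by
  refine ⟨T_prob μ, ?_⟩
  unfold T
  rw [Measure.map_apply (by fun_prop) measurableSet_Icc.compl]
  refine measure_mono_null ?_ h
  intro x hx hx2
  apply hx
  rw [Set.mem_Icc] at hx2 ⊢
  exact ⟨by linarith [hx2.1], by linarith [hx2.2]⟩

theorem T_prod (μ ν : Measure ℝ) [IsProbabilityMeasure μ] [IsProbabilityMeasure ν] :
    (T μ).prod (T ν) = (μ.prod ν).map (fun p : ℝ × ℝ => (p.1 + 1, p.2 + 1)) := by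
  unfold T
  rw [Measure.map_prod_map _ _ (by fun_prop) (by fun_prop)]
  rfl

theorem T_fin2 {μ ν : Measure ℝ} [IsProbabilityMeasure μ] [IsProbabilityMeasure ν] (h : Fin2 μ ν) :
    Fin2 (T μ) (T ν) := by
  have hm : Measurable (fun p : ℝ × ℝ => Real.log |p.1 - p.2|) := by fun_prop
  refine ⟨?_, ?_⟩
  · rw [T_prod, Measure.map_apply (by fun_prop) (measurableSet_eq_fun measurable_fst measurable_snd)]
    refine measure_mono_null ?_ h.1
    intro p hp
    have : p.1 + 1 = p.2 + 1 := hp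
    show p.1 = p.2
    linarith
  · rw [T_prod, integrable_map_measure hm.aestronglyMeasurable (by fun_prop)]
    refine h.2.congr (ae_of_all _ fun p => ?_)
    simp only [Function.comp]
    congr 2
    ring

theorem T_I2 (μ ν : Measure ℝ) [IsProbabilityMeasure μ] [IsProbabilityMeasure ν] :
    I2 (T μ) (T ν) = I2 μ ν := by
  have hm : Measurable (fun p : ℝ × ℝ => Real.log |p.1 - p.2|) := by fun_prop
  unfold I2
  rw [T_prod, integral_map (by fun_prop) hm.aestronglyMeasurable]
  refine integral_congr_ae (ae_of_all _ fun p => ?_)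
  simp only
  congr 2
  ring

end NEGaux

open NEGaux in
theorem pNEG : NEG := by
  intro μ ν hμ hν hμK hνK h1 h2 h3
  have h := neg_on (T_on hμK) (T_on hνK) (T_fin2 h1) (T_fin2 h2) (T_fin2 h3)
  rwa [T_I2, T_I2, T_I2] at h

end Pool.Agent.W401.EHM
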