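import Pool.Agent.W401.EHM.Stm

/-!
# Integrability of the logarithmic kernel (project EHM, part POT)
-/

open MeasureTheory Set
open scoped ENNReal

namespace Pool.Agent.W401.EHM.POTaux

theorem rp (k : ℕ) : (4 * (1 / 2 : ℝ) ^ k) ^ ((1 : ℝ) / 10) ≤ 3 / 2 * (19 / 20 : ℝ) ^ k := by
  have h0 : (0 : ℝ) ≤ 3 / 2 * (19 / 20 : ℝ) ^ k := by positivity
  have h1 : (4 * (1 / 2 : ℝ) ^ k) ≤ (3 / 2 * (19 / 20 : ℝ) ^ k) ^ 10 := by
    rw [mul_pow, ← pow_mul, mul_comm k 10, pow_mul]
    have a : (4 : ℝ) ≤ (3 / 2) ^ 10 := by norm_num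
    have b : (1 / 2 : ℝ) ≤ (19 / 20) ^ 10 := by norm_num
    have c : (1 / 2 : ℝ) ^ k ≤ ((19 / 20) ^ 10) ^ k := pow_le_pow_left₀ (by norm_num) b k
    exact mul_le_mul a c (by positivity) (by positivity)
  have h2 := Real.rpow_le_rpow (by positivity) h1 (by norm_num : (0 : ℝ) ≤ 1 / 10)
  have h3 : ((3 / 2 * (19 / 20 : ℝ) ^ k) ^ 10) ^ ((1 : ℝ) / 10) = 3 / 2 * (19 / 20 : ℝ) ^ k := by
    have := Real.pow_rpow_inv_natCast h0 (n := 10) (by norm_num)
    rw [one_div]
    exact_mod_cast this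
  rw [h3] at h2
  exact h2

theorem pw {x y : ℝ} (hx : x ∈ Icc (-1 : ℝ) 1) (hy : y ∈ Icc (-1 : ℝ) 1) (hxy : y ≠ x) :
    ENNReal.ofReal |(Real.log |x - y|)| ≤ 1 + ∑' k : ℕ,
      (Icc (x - 2 * (1 / 2 : ℝ) ^ k) ((x - 2 * (1 / 2 : ℝ) ^ k) + 4 * (1 / 2 : ℝ) ^ k)).indicator
        (fun _ => (1 : ℝ≥0∞)) y := by
  set d := |x - y| with hd
  have d0 : 0 < d := abs_pos.2 (sub_ne_zero.2 (Ne.symm hxy))
  have d2 : d ≤ 2 := by
    rw [hd, abs_le]; constructor <;> linarith [hx.1, hx.2, hy.1, hy.2]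
  obtain ⟨n, hn1, hn2⟩ := exists_nat_pow_near_of_lt_one (x := d / 2) (y := 1 / 2)
    (by positivity) (by linarith) (by norm_num) (by norm_num)
  have hl : |Real.log d| ≤ 1 + (n + 1 : ℝ) := by
    have l2 : Real.log 2 ≤ 1 := by
      have := Real.log_two_lt_d9; linarith
    have l20 : 0 < Real.log 2 := Real.log_pos (by norm_num)
    have e : Real.log d = Real.log 2 + Real.log (d / 2) := by
      rw [← Real.log_mul (by norm_num) (by positivity)]; congr 1; ring
    have u : Real.log (d / 2) ≤ 0 := Real.log_nonpos (by positivity) (by linarith)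
    have v : -((n : ℝ) + 1) ≤ Real.log (d / 2) := by
      have := Real.log_le_log (by positivity) hn1.le
      rw [Real.log_pow] at this
      have e2 : Real.log (1 / 2 : ℝ) = - Real.log 2 := by
        rw [one_div, Real.log_inv]
      rw [e2] at this
      push_cast at this
      have nn : (0 : ℝ) ≤ n + 1 := by positivity
      nlinarith
    rw [abs_le, e]
    constructor <;> linarith
  calc ENNReal.ofReal |Real.log d| ≤ ENNReal.ofReal (1 + (n + 1 : ℝ)) := ENNReal.ofReal_le_ofReal hl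
    _ = 1 + ∑ k ∈ Finset.range (n + 1), (1 : ℝ≥0∞) := by
      rw [ENNReal.ofReal_add (by norm_num) (by positivity)]
      simp only [ENNReal.ofReal_one, Finset.sum_const, Finset.card_range, nsmul_eq_mul, mul_one]
      congr 1
      rw [show (n + 1 : ℝ) = ((n + 1 : ℕ) : ℝ) by push_cast; ring, ENNReal.ofReal_natCast]
    _ ≤ 1 + ∑ k ∈ Finset.range (n + 1),
      (Icc (x - 2 * (1 / 2 : ℝ) ^ k) ((x - 2 * (1 / 2 : ℝ) ^ k) + 4 * (1 / 2 : ℝ) ^ k)).indicator
        (fun _ => (1 : ℝ≥0∞)) y := by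
      gcongr with k hk
      rw [indicator_of_mem]
      have hkn : k ≤ n := by have := Finset.mem_range.1 hk; omega
      have hp : (1 / 2 : ℝ) ^ n ≤ (1 / 2 : ℝ) ^ k :=
        pow_le_pow_of_le_one (by norm_num) (by norm_num) hkn
      have hdk : |x - y| ≤ 2 * (1 / 2 : ℝ) ^ k := by rw [← hd]; linarith
      rw [abs_le] at hdk
      constructor <;> linarith [hdk.1, hdk.2]
    _ ≤ _ := by
      gcongr
      exact ENNReal.sum_le_tsum _

theorem tot : ∑' k : ℕ, ENNReal.ofReal (10 * (4 * (1 / 2 : ℝ) ^ k) ^ ((1 : ℝ) / 10))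
    ≤ ENNReal.ofReal 300 := by
  have hs : HasSum (fun k : ℕ => 15 * (19 / 20 : ℝ) ^ k) 300 := by
    have := (hasSum_geometric_of_lt_one (r := (19 / 20 : ℝ)) (by norm_num) (by norm_num)).mul_left 15
    have e : (300 : ℝ) = 15 * (1 - 19 / 20)⁻¹ := by norm_num
    rw [e]
    exact this
  have h1 : ∑' k : ℕ, ENNReal.ofReal (15 * (19 / 20 : ℝ) ^ k) = ENNReal.ofReal 300 := by
    rw [← ENNReal.ofReal_tsum_of_nonneg (fun k => by positivity) hs.summable, hs.tsum_eq]
  rw [← h1]
  refine ENNReal.tsum_le_tsum fun k => ENNReal.ofReal_le_ofReal ?_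
  have := rp k
  linarith

end Pool.Agent.W401.EHM.POTaux

namespace Pool.Agent.W401.EHM

open POTaux

theorem pPOT : POT := by
  intro ν hν hsupp hH x hx
  have hx0 : ν {x} = 0 := by
    have key : ∀ t : ℝ, 0 < t → ν {x} ≤ ENNReal.ofReal (10 * t) := by
      intro t ht
      have h1 := hH x (t ^ 10) (by positivity)
      have h3 : (t ^ 10) ^ ((1 : ℝ) / 10) = t := by
        have := Real.pow_rpow_inv_natCast ht.le (n := 10) (by norm_num)
        rw [one_div]
        exact_mod_cast this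
      rw [h3] at h1
      refine le_trans (measure_mono ?_) h1
      intro z hz
      rw [mem_singleton_iff.1 hz]
      have : 0 < t ^ 10 := by positivity
      constructor <;> linarith
    have lim : Filter.Tendsto (fun t : ℝ => ENNReal.ofReal (10 * t)) (nhdsWithin 0 (Ioi 0))
        (nhds (ENNReal.ofReal (10 * 0))) := by
      refine (ENNReal.continuous_ofReal.comp (continuous_const.mul continuous_id)).continuousAt.tendsto.mono_left nhdsWithin_le_nhds
    rw [mul_zero, ENNReal.ofReal_zero] at lim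
    refine le_antisymm (ge_of_tendsto lim ?_) bot_le
    filter_upwards [self_mem_nhdsWithin] with t ht
    exact key t ht
  have hmeas : Measurable (fun y : ℝ => Real.log |x - y|) := by
    fun_prop
  have hae : ∀ᵐ y ∂ν, y ∈ Icc (-1 : ℝ) 1 ∧ y ≠ x := by
    have h1 : ∀ᵐ y ∂ν, y ∈ Icc (-1 : ℝ) 1 := by
      rw [ae_iff]; exact hsupp
    have h2 : ∀ᵐ y ∂ν, y ≠ x := by
      rw [ae_iff]
      simpa using hx0
    filter_upwards [h1, h2] with y a b using ⟨a, b⟩
  have hbound : ∫⁻ y, ENNReal.ofReal |(Real.log |x - y|)| ∂ν ≤ ENNReal.ofReal 301 := by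
    calc ∫⁻ y, ENNReal.ofReal |(Real.log |x - y|)| ∂ν
        ≤ ∫⁻ y, (1 + ∑' k : ℕ,
      (Icc (x - 2 * (1 / 2 : ℝ) ^ k) ((x - 2 * (1 / 2 : ℝ) ^ k) + 4 * (1 / 2 : ℝ) ^ k)).indicator
        (fun _ => (1 : ℝ≥0∞)) y) ∂ν := by
          refine lintegral_mono_ae ?_
          filter_upwards [hae] with y hy
          exact pw hx hy.1 hy.2
      _ = 1 + ∑' k : ℕ, ν (Icc (x - 2 * (1 / 2 : ℝ) ^ k)
            ((x - 2 * (1 / 2 : ℝ) ^ k) + 4 * (1 / 2 : ℝ) ^ k)) := by
          rw [lintegral_add_left measurable_const, lintegral_tsum]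
          · congr 1
            · simp
            · refine tsum_congr fun k => ?_
              rw [lintegral_indicator measurableSet_Icc]
              simp
          · intro k
            exact (measurable_const.indicator measurableSet_Icc).aemeasurable
      _ ≤ 1 + ∑' k : ℕ, ENNReal.ofReal (10 * (4 * (1 / 2 : ℝ) ^ k) ^ ((1 : ℝ) / 10)) := by
          gcongr with k
          exact hH _ _ (by positivity)
      _ ≤ 1 + ENNReal.ofReal 300 := by
          gcongr
          exact tot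
      _ = ENNReal.ofReal 301 := by
          rw [← ENNReal.ofReal_one, ← ENNReal.ofReal_add (by norm_num) (by norm_num)]
          norm_num
  have hint : Integrable (fun y => Real.log |x - y|) ν := by
    refine ⟨hmeas.aestronglyMeasurable, ?_⟩
    rw [hasFiniteIntegral_iff_norm]
    refine lt_of_le_of_lt ?_ (lt_of_le_of_lt hbound ENNReal.ofReal_lt_top)
    exact le_of_eq rfl
  refine ⟨hx0, hint, ?_⟩
  rw [integral_eq_lintegral_of_nonneg_ae (Filter.Eventually.of_forall fun y => abs_nonneg _)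
    hmeas.norm.aestronglyMeasurable]
  have := ENNReal.toReal_mono ENNReal.ofReal_ne_top hbound
  rw [ENNReal.toReal_ofReal (by norm_num)] at this
  linarith

end Pool.Agent.W401.EHM
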