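import Pool.Agent.W401.EHM.Stm

/-! Project EHM: the recursion for the measures `nu n` (by helper748). -/

set_option autoImplicit false

open MeasureTheory

namespace Pool.Agent.W401.EHM

namespace RECaux

/-- replace the digit of index `n` -/
def Phi (n : ℕ) (q : Fin (N n) × Om) : Om := Function.update q.2 n q.1

lemma measurable_Phi (n : ℕ) : Measurable (Phi n) := by
  refine measurable_pi_iff.2 fun k => ?_
  by_cases h : k = n
  · subst h
    have : (fun q : Fin (N k) × Om => Phi k q k) = fun q => q.1 := by
      funext q
      simp [Phi]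
    rw [this]
    exact measurable_fst
  · have : (fun q : Fin (N n) × Om => Phi n q k) = fun q => q.2 k := by
      funext q
      simp [Phi, Function.update_of_ne h]
    rw [this]
    exact (measurable_pi_apply k).comp measurable_snd

lemma map_Phi (n : ℕ) : ((unif n).prod Pr).map (Phi n) = Pr := by
  classical
  unfold Pr
  refine Measure.eq_infinitePi _ fun s t ht => ?_
  have hms : MeasurableSet (Set.pi (s : Set ℕ) t) :=
    MeasurableSet.pi s.countable_toSet fun i _ => ht i
  rw [Measure.map_apply (measurable_Phi n) hms]
  by_cases hn : n ∈ s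
  · have e : Phi n ⁻¹' (Set.pi (s : Set ℕ) t) = (t n) ×ˢ (Set.pi ((s.erase n : Finset ℕ) : Set ℕ) t) := by
      ext q
      simp only [Set.mem_preimage, Set.mem_pi, Finset.mem_coe, Set.mem_prod, Finset.mem_erase]
      constructor
      · intro h
        refine ⟨?_, fun i hi => ?_⟩
        · have := h n hn
          simpa [Phi] using this
        · have := h i hi.2
          simpa [Phi, Function.update_of_ne hi.1] using this
      · rintro ⟨h1, h2⟩ i hi
        by_cases hin : i = n
        · subst hin
          simpa [Phi] using h1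
        · simpa [Phi, Function.update_of_ne hin] using h2 i ⟨hin, hi⟩
    rw [e, Measure.prod_prod, Measure.infinitePi_pi _ (fun i _ => ht i), Finset.mul_prod_erase s (fun i => unif i (t i)) hn]
  · have e : Phi n ⁻¹' (Set.pi (s : Set ℕ) t) = Set.univ ×ˢ (Set.pi (s : Set ℕ) t) := by
      ext q
      simp only [Set.mem_preimage, Set.mem_pi, Finset.mem_coe, Set.mem_prod, Set.mem_univ, true_and]
      have hne : ∀ i ∈ s, i ≠ n := fun i hi h => hn (h ▸ hi)
      constructor
      · intro h i hi
        have := h i hi
        simpa [Phi, Function.update_of_ne (hne i hi)] using this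
      · intro h i hi
        have := h i hi
        simpa [Phi, Function.update_of_ne (hne i hi)] using this
    rw [e, Measure.prod_prod, Measure.infinitePi_pi _ (fun i _ => ht i), measure_univ, one_mul]

end RECaux

open RECaux in
theorem pREC : COD → REC := by
  intro h n
  refine Measure.ext fun B hB => ?_
  have hmc : MeasurableSet (cod n ⁻¹' B) := (h.meas n) hB
  have h1 : nu n B = ((unif n).prod Pr) (Phi n ⁻¹' (cod n ⁻¹' B)) := by
    rw [h.nu_apply n hB, ← Measure.map_apply (measurable_Phi n) hmc, map_Phi]
  rw [h1, Measure.prod_apply ((measurable_Phi n) hmc)]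
  have h2 : ∀ j : Fin (N n), Pr (Prod.mk j ⁻¹' (Phi n ⁻¹' (cod n ⁻¹' B))) = (nu (n + 1)).map (g n j) B := by
    intro j
    rw [Measure.map_apply (g_cont n j).measurable hB, h.nu_apply (n + 1) ((g_cont n j).measurable hB)]
    congr 1
    ext ω
    simp only [Set.mem_preimage]
    have h3 : cod n (Phi n (j, ω)) = g n j (cod (n + 1) ω) := by
      rw [h.2.2.1 n (Phi n (j, ω))]
      have h4 : cod (n + 1) (Phi n (j, ω)) = cod (n + 1) ω := by
        refine h.2.2.2 (n + 1) _ _ fun k hk => ?_
        simp [Phi, Function.update_of_ne (show k ≠ n by omega)]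
      rw [h4]
      have h5 : Phi n (j, ω) n = j := by simp [Phi]
      rw [h5]
    rw [h3]
  simp_rw [h2]
  unfold unif
  rw [lintegral_smul_measure, lintegral_count, tsum_fintype, smul_eq_mul, Measure.finsetSum_apply,
    ← Fin.sum_univ_eq_sum_range (fun j => ((N n : ENNReal)⁻¹ • (nu (n + 1)).map (g n j)) B), Finset.mul_sum]
  rfl

end Pool.Agent.W401.EHM
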