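import Pool.Agent.W401.EHM.Stm

set_option autoImplicit false

namespace Pool.Agent.W401.EHM

namespace SEPaux

theorem base (h2 : G2) (hc : COD) (m : ℕ) (ω ω' : Om) :
    (((ω m : ℕ) : ℝ) - ((ω' m : ℕ) : ℝ)) ^ 2 / (2 * (N m : ℝ) ^ 2) ≤ |cod m ω - cod m ω'| := by
  obtain ⟨-, hmem, hrec, -⟩ := hc
  rw [hrec m ω, hrec m ω']
  rcases lt_trichotomy (ω m : ℕ) (ω' m : ℕ) with h | h | h
  · have := h2 m (ω m) (ω' m) h (ω' m).isLt _ (hmem (m + 1) ω) _ (hmem (m + 1) ω')
    rw [← neg_sq, neg_sub]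
    exact this
  · rw [h, sub_self]
    simp only [ne_eq, OfNat.ofNat_ne_zero, not_false_eq_true, zero_pow, zero_div]
    exact abs_nonneg _
  · have := h2 m (ω' m) (ω m) h (ω m).isLt _ (hmem (m + 1) ω') _ (hmem (m + 1) ω)
    rw [abs_sub_comm]
    exact this

end SEPaux

theorem pSEP : G2 → G3 → COD → SEP := by
  intro h2 h3 hc n m
  intro ω ω' hnm
  obtain ⟨d, rfl⟩ := Nat.exists_eq_add_of_le hnm
  clear hnm
  induction d generalizing n with
  | zero =>
    intro _
    rw [add_zero, Finset.Ico_self, Finset.prod_empty, one_mul]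
    exact SEPaux.base h2 hc n ω ω'
  | succ d ih =>
    intro hag
    have ih' := ih (n + 1)
    rw [show n + 1 + d = n + (d + 1) by ring] at ih'
    have ih'' := ih' (fun k hk hk' => hag k (by omega) hk')
    rw [Finset.prod_eq_prod_Ico_succ_bot (by omega : n < n + (d + 1))]
    refine ih''.trans ?_
    rw [mul_comm ((N n : ℝ) ^ 4), mul_assoc]
    apply mul_le_mul_of_nonneg_left _ (Finset.prod_nonneg fun _ _ => by positivity)
    have e1 := hc.2.2.1 n ω
    have e2 := hc.2.2.1 n ω'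
    rw [e1, e2, hag n le_rfl (by omega)]
    exact h3 n (ω' n) (ω' n).isLt _ (hc.2.1 (n + 1) ω) _ (hc.2.1 (n + 1) ω')

end Pool.Agent.W401.EHM
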