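import Pool.Agent.W401.EHM.Stm

set_option autoImplicit false

/-! The potential is constant on the Cantor set. -/

open MeasureTheory

namespace Pool.Agent.W401.EHM

namespace UCOaux

theorem U_bound (hH : HOL) (hP : POT) (hC : COD) (n : ℕ) (ω : Om) : |U n (cod n ω)| ≤ 1000 := by
  have h1 := hP (nu n) (hC.prob n) (hC.supp n) (hH n) (cod n ω) (hC.2.1 n ω)
  refine le_trans ?_ h1.2.2
  unfold U
  exact abs_integral_le_integral_abs

theorem U_step (hU : URE) (hG : G1) (hC : COD) (n : ℕ) (ω : Om) :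
    U n (cod n ω) =
      (U (n + 1) (cod (n + 1) ω) - Real.log ((N n : ℝ) ^ 2 * 2 ^ (N n - 1))) / N n := by
  have h1 : F n (cod n ω) = cod (n + 1) ω := by
    rw [hC.2.2.1 n ω]
    exact hG n (ω n) (ω n).2 _ (hC.2.1 (n + 1) ω)
  have h2 := hU n (cod n ω) (hC.2.1 n ω) (by rw [h1]; exact hC.2.1 (n + 1) ω)
  rw [h1] at h2
  exact h2

end UCOaux

open UCOaux in
theorem pUCO : URE → G1 → HOL → POT → COD → UCO := by
  intro hU hG hH hP hC x hx y hy
  obtain ⟨ω, rfl⟩ := hx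
  obtain ⟨ω', rfl⟩ := hy
  have hstep : ∀ n, 16 * |U n (cod n ω) - U n (cod n ω')| ≤
      |U (n + 1) (cod (n + 1) ω) - U (n + 1) (cod (n + 1) ω')| := by
    intro n
    have hN : (16 : ℝ) ≤ (N n : ℝ) := by exact_mod_cast N_ge n
    have hN0 : (0 : ℝ) < (N n : ℝ) := by linarith
    have h1 : U n (cod n ω) - U n (cod n ω') =
        (U (n + 1) (cod (n + 1) ω) - U (n + 1) (cod (n + 1) ω')) / N n := by
      rw [U_step hU hG hC n ω, U_step hU hG hC n ω']
      ring
    rw [h1, abs_div, abs_of_pos hN0]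
    rw [mul_div_assoc', div_le_iff₀ hN0, mul_comm]
    exact mul_le_mul_of_nonneg_left hN (abs_nonneg _)
  have hind : ∀ n, 16 ^ n * |U 0 (cod 0 ω) - U 0 (cod 0 ω')| ≤
      |U n (cod n ω) - U n (cod n ω')| := by
    intro n
    induction n with
    | zero => simp
    | succ n ih =>
      refine le_trans ?_ (hstep n)
      have : (16 : ℝ) ^ (n + 1) * |U 0 (cod 0 ω) - U 0 (cod 0 ω')| =
          16 * (16 ^ n * |U 0 (cod 0 ω) - U 0 (cod 0 ω')|) := by ring
      rw [this]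
      linarith
  have hbd : ∀ n, |U n (cod n ω) - U n (cod n ω')| ≤ 2000 := by
    intro n
    have h1 := abs_le.1 (U_bound hH hP hC n ω)
    have h2 := abs_le.1 (U_bound hH hP hC n ω')
    rw [abs_le]
    constructor <;> linarith [h1.1, h1.2, h2.1, h2.2]
  by_contra hne
  have hpos : 0 < |U 0 (cod 0 ω) - U 0 (cod 0 ω')| := abs_pos.2 (sub_ne_zero.2 hne)
  obtain ⟨n, hn⟩ := pow_unbounded_of_one_lt (2000 / |U 0 (cod 0 ω) - U 0 (cod 0 ω')|)
    (by norm_num : (1 : ℝ) < 16)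
  rw [div_lt_iff₀ hpos] at hn
  linarith [hind n, hbd n]

end Pool.Agent.W401.EHM
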