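import Pool.Agent.W401.EHM.Stm

/-!
# The recursion for the potentials (project EHM)
-/

open MeasureTheory

namespace Pool.Agent.W401.EHM

namespace UREaux

theorem meas (x : ℝ) : Measurable (fun y : ℝ => Real.log |x - y|) :=
  Real.measurable_log.comp ((measurable_const.sub measurable_id).abs)

end UREaux

theorem pURE : G5 → REC → HOL → POT → COD → URE := by
  intro hG5 hREC hHOL hPOT hCOD n x hx hFx
  have hp1 : IsProbabilityMeasure (nu (n + 1)) := hCOD.prob (n + 1)
  obtain ⟨-, hi, -⟩ := hPOT (nu n) (hCOD.prob n) (hCOD.supp n) (hHOL n) x hx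
  obtain ⟨h0, hi1, -⟩ := hPOT (nu (n + 1)) hp1 (hCOD.supp (n + 1)) (hHOL (n + 1)) (F n x) hFx
  have hm := UREaux.meas x
  have hN0 : (N n : ENNReal) ≠ 0 := by exact_mod_cast (N_pos n).ne'
  have hc0 : (N n : ENNReal)⁻¹ ≠ 0 := ENNReal.inv_ne_zero.2 (ENNReal.natCast_ne_top _)
  have hct : (N n : ENNReal)⁻¹ ≠ ⊤ := ENNReal.inv_ne_top.2 hN0
  rw [hREC n, integrable_finsetSum_measure] at hi
  have hi2 : ∀ j ∈ Finset.range (N n),
      Integrable (fun y => Real.log |x - g n j y|) (nu (n + 1)) := by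
    intro j hj
    have h1 := (integrable_smul_measure hc0 hct).1 (hi j hj)
    exact (integrable_map_measure hm.aestronglyMeasurable (g_cont n j).aemeasurable).1 h1
  have h2 : U n x = ∑ j ∈ Finset.range (N n),
      ((N n : ENNReal)⁻¹).toReal • ∫ y, Real.log |x - g n j y| ∂(nu (n + 1)) := by
    unfold U
    rw [hREC n, integral_finsetSum_measure hi]
    refine Finset.sum_congr rfl fun j _ => ?_
    rw [integral_smul_measure, integral_map (g_cont n j).aemeasurable hm.aestronglyMeasurable]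
  have h3 : ∑ j ∈ Finset.range (N n), ∫ y, Real.log |x - g n j y| ∂(nu (n + 1)) =
      U (n + 1) (F n x) - Real.log ((N n : ℝ) ^ 2 * 2 ^ (N n - 1)) := by
    rw [← integral_finsetSum _ hi2]
    have h4 : ∀ᵐ y ∂(nu (n + 1)), ∑ j ∈ Finset.range (N n), Real.log |x - g n j y| =
        Real.log |F n x - y| - Real.log ((N n : ℝ) ^ 2 * 2 ^ (N n - 1)) := by
      have h5 : ∀ᵐ y ∂(nu (n + 1)), y ∈ Set.Icc (-1 : ℝ) 1 := by
        rw [ae_iff]
        exact hCOD.supp (n + 1)
      have h6 : ∀ᵐ y ∂(nu (n + 1)), y ≠ F n x := by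
        rw [ae_iff]
        simpa using h0
      filter_upwards [h5, h6] with y hy hy2
      exact hG5 n x hx y hy (Ne.symm hy2)
    rw [integral_congr_ae h4, integral_sub hi1 (integrable_const _), integral_const]
    simp [U]
  rw [h2, ← Finset.smul_sum, h3, ENNReal.toReal_inv, ENNReal.toReal_natCast, smul_eq_mul]
  rw [div_eq_inv_mul]

end Pool.Agent.W401.EHM
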